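import Mathlib
import Pool.Agent.R352.MG.B
import Pool.Agent.TH35.MG.Low

set_option autoImplicit false

/-! The handle relations: products vanish, then squares vanish, over any ring. -/

namespace Pool.Agent.E8helper34.SD

open Pool.Agent.H798R3.MG Pool.Agent.TH35.MG Pool.Agent.R352.MG

section
variable {G : Type*} [Group G] {R : Type*} [Ring R] {N : ℕ} {A B al be T : ℕ → G} {tau : G}

/-- the elements `x` with `x P = P` -/
def Fx (ρ : G →* R) (P : R) : Subgroup G where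
  carrier := {x | ρ x * P = P}
  one_mem' := by
    show ρ 1 * P = P
    rw [map_one, one_mul]
  mul_mem' := by
    intro x y hx hy
    show ρ (x * y) * P = P
    rw [map_mul, mul_assoc, show ρ y * P = P from hy, show ρ x * P = P from hx]
  inv_mem' := by
    intro x hx
    show ρ x⁻¹ * P = P
    have h : ρ x * P = P := hx
    calc ρ x⁻¹ * P = ρ x⁻¹ * (ρ x * P) := by rw [h]
      _ = P := by rw [← mul_assoc, ← map_mul, inv_mul_cancel, map_one, one_mul]

theorem mem_Fx {ρ : G →* R} {P : R} {x : G} : x ∈ Fx ρ P ↔ ρ x * P = P := Iff.rfl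

theorem braid_Fx {ρ : G →* R} {P : R} {x y : G} (hb : x * y * x = y * x * y) (hx : x ∈ Fx ρ P)
    (hc : Commute (ρ y) P) : y ∈ Fx ρ P := by
  have hx' : ρ x * P = P := hx
  have h := congrArg (fun z => ρ z * P) hb
  simp only [map_mul] at h
  have e1 : ρ x * ρ y * ρ x * P = ρ y * P := by
    calc ρ x * ρ y * ρ x * P = ρ x * ρ y * (ρ x * P) := by rw [mul_assoc]
      _ = ρ x * (ρ y * P) := by rw [hx', mul_assoc]
      _ = ρ x * P * ρ y := by rw [hc.eq, mul_assoc]
      _ = ρ y * P := by rw [hx', hc.eq]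
  have e2 : ρ y * ρ x * ρ y * P = ρ y * (ρ y * P) := by
    calc ρ y * ρ x * ρ y * P = ρ y * (ρ x * (ρ y * P)) := by simp only [mul_assoc]
      _ = ρ y * (ρ x * P * ρ y) := by rw [hc.eq, mul_assoc]
      _ = ρ y * (ρ y * P) := by rw [hx', hc.eq]
  rw [e1, e2] at h
  have hi : ρ y⁻¹ * ρ y = 1 := by rw [← map_mul, inv_mul_cancel, map_one]
  have h2 := congrArg (fun z => ρ y⁻¹ * z) h
  simp only [← mul_assoc, hi, one_mul] at h2
  exact h2.symm

/-- if `(A_1 - 1) (A_2 - 1) = 0` then `(A_2 - 1) ^ 2 = 0` -/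
theorem sq_A (r : HRel N A B al be T tau) (hN : 3 ≤ N) (ρ : G →* R)
    (h : (ρ (A 1) - 1) * (ρ (A 2) - 1) = 0) : (ρ (A 2) - 1) * (ρ (A 2) - 1) = 0 := by
  set P := ρ (A 2) - 1 with hP
  have cP : ∀ x : G, Commute x (A 2) → Commute (ρ x) P := fun x hx =>
    (hx.map ρ).sub_right (Commute.one_right _)
  have fA1 : A 1 ∈ Fx ρ P := by
    rw [mem_Fx]
    rw [sub_mul, one_mul] at h
    exact sub_eq_zero.1 h
  have fB1 : B 1 ∈ Fx ρ P := braid_Fx (r.braidAB 1 (by omega)) fA1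
    (cP _ (r.commAB 2 (by omega) 1 (by omega) (by omega)).symm)
  have fT0 : T 0 ∈ Fx ρ P := braid_Fx (r.braidTBj 0 (by omega)).symm fB1
    (cP _ (r.commTA 0 (by omega) 2 (by omega)))
  have fT1 : T 1 ∈ Fx ρ P := braid_Fx (r.braidTBi 1 (by omega)).symm fB1
    (cP _ (r.commTA 1 (by omega) 2 (by omega)))
  have fB0 : B 0 ∈ Fx ρ P := braid_Fx (r.braidTBi 0 (by omega)) fT0
    (cP _ (r.commAB 2 (by omega) 0 (by omega) (by omega)).symm)
  have fA0 : A 0 ∈ Fx ρ P := braid_Fx (r.braidAB 0 (by omega)).symm fB0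
    (cP _ (r.commAA 0 (by omega) 2 (by omega)))
  have fS : Ss A B T 0 ∈ Fx ρ P := by
    unfold Ss Sw
    exact mul_mem (mul_mem (mul_mem (mul_mem (mul_mem (mul_mem (mul_mem (mul_mem fA0 fB0) fT0)
      fB1) fA1) (mul_mem (mul_mem (mul_mem fA0 fB0) fT0) fB1)) (mul_mem (mul_mem fA0 fB0) fT0))
      (mul_mem fA0 fB0)) fA0
  have fQ : Qw (A 0) (B 0) ∈ Fx ρ P := by
    unfold Qw Rw
    have h1 := mul_mem (mul_mem fA0 fB0) fA0
    exact mul_mem (mul_mem h1 h1) (mul_mem h1 h1)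
  have fD : Dd A B T 0 ∈ Fx ρ P := by
    have e := r.dd2 0 (by omega)
    have e2 : Dd A B T 0 = (Qw (A 0) (B 0))⁻¹ *
        (Ss A B T 0 * T (0 + 1) * (Ss A B T 0)⁻¹ * Qw (A 0) (B 0)) := by
      rw [← e]; group
    rw [e2]
    exact mul_mem (inv_mem fQ) (mul_mem (mul_mem (mul_mem fS fT1) (inv_mem fS)) fQ)
  have ca : Commute (ρ (A 2)⁻¹) P := cP _ (Commute.refl (A 2)).inv_left
  have hL : ρ (Ll A B T 0) * P = ρ (A 2)⁻¹ * P := by
    have e1 : Ll A B T 0 = T 0 * T 1 * Dd A B T 0 * (A 0)⁻¹ * (A 1)⁻¹ * (A 2)⁻¹ := by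
      unfold Ll
      have c1 := (r.commAA 0 (by omega) 1 (by omega)).eq
      have c2 := (r.commAA 0 (by omega) 2 (by omega)).eq
      have c3 := (r.commAA 1 (by omega) 2 (by omega)).eq
      have e0 : A 0 * A 1 * A 2 = A 2 * A 1 * A 0 := by
        rw [mul_assoc, c3, ← mul_assoc, c2, mul_assoc, c1, ← mul_assoc]
      show T 0 * T 1 * Dd A B T 0 * (A 0 * A 1 * A 2)⁻¹ = _
      rw [e0]
      group
    have fP : T 0 * T 1 * Dd A B T 0 * (A 0)⁻¹ * (A 1)⁻¹ ∈ Fx ρ P :=
      mul_mem (mul_mem (mul_mem (mul_mem fT0 fT1) fD) (inv_mem fA0)) (inv_mem fA1)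
    rw [e1, map_mul, mul_assoc, ca.eq, ← mul_assoc, mem_Fx.1 fP]
  have hLl := r.lantern 0 (by omega)
  have hB0 : ρ (B 0) * P = P := fB0
  have h2 := congrArg (fun z => ρ z * P) hLl
  simp only [map_mul] at h2
  set a := ρ (A 2)⁻¹ with ha
  have e1 : ρ (Ll A B T 0) * ρ (B 0) * ρ (Ll A B T 0) * P = a * (a * P) := by
    calc ρ (Ll A B T 0) * ρ (B 0) * ρ (Ll A B T 0) * P
        = ρ (Ll A B T 0) * (ρ (B 0) * (ρ (Ll A B T 0) * P)) := by simp only [mul_assoc]
      _ = ρ (Ll A B T 0) * (ρ (B 0) * P * a) := by rw [hL, ca.eq]; simp only [mul_assoc]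
      _ = ρ (Ll A B T 0) * P * a := by rw [hB0, mul_assoc]
      _ = a * (a * P) := by rw [hL, mul_assoc, ← ca.eq]
  have e2 : ρ (B 0) * ρ (Ll A B T 0) * ρ (B 0) * P = a * P := by
    calc ρ (B 0) * ρ (Ll A B T 0) * ρ (B 0) * P
        = ρ (B 0) * (ρ (Ll A B T 0) * (ρ (B 0) * P)) := by simp only [mul_assoc]
      _ = a * P := by rw [hB0, hL, ca.eq, ← mul_assoc, hB0]
  rw [e1, e2] at h2
  have hi : ρ (A 2) * a = 1 := by rw [ha, ← map_mul, mul_inv_cancel, map_one]
  have h3 := congrArg (fun z => ρ (A 2) * z) h2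
  simp only [← mul_assoc, hi, one_mul] at h3
  have h4 : ρ (A 2) * P = P := by
    have h5 := congrArg (fun z => ρ (A 2) * z) h3
    simp only [← mul_assoc, hi, one_mul] at h5
    exact h5.symm
  rw [hP, sub_mul, one_mul, ← hP, h4, sub_self]

/-- a homomorphism to an abelian group, defined on a subgroup containing the `A_i`, `B_i`, `T_i` -/
theorem ab_zero {C : Type*} [AddCommGroup C] (P : Subgroup G) (δ : G → C)
    (hδ : ∀ x ∈ P, ∀ y ∈ P, δ (x * y) = δ x + δ y) (r : HRel N A B al be T tau) (hN : 3 ≤ N)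
    (hA : ∀ i < N, A i ∈ P) (hB : ∀ i < N, B i ∈ P) (hT : ∀ i, i + 1 < N → T i ∈ P) :
    (∀ i < N, δ (A i) = 0) ∧ (∀ i < N, δ (B i) = 0) ∧ ∀ i, i + 1 < N → δ (T i) = 0 := by
  have h1 : δ 1 = 0 := by
    have := hδ 1 P.one_mem 1 P.one_mem
    rw [one_mul] at this
    exact left_eq_add.1 this
  have hinv : ∀ x ∈ P, δ x⁻¹ = - δ x := by
    intro x hx
    have := hδ x hx x⁻¹ (P.inv_mem hx)
    rw [mul_inv_cancel, h1] at this
    exact (neg_eq_of_add_eq_zero_right this.symm).symm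
  have hbr : ∀ x ∈ P, ∀ y ∈ P, x * y * x = y * x * y → δ x = δ y := by
    intro x hx y hy h
    have h2 := congrArg δ h
    rw [hδ _ (P.mul_mem hx hy) _ hx, hδ _ hx _ hy, hδ _ (P.mul_mem hy hx) _ hy,
      hδ _ hy _ hx] at h2
    have h3 : (δ x + δ y) + δ x = (δ x + δ y) + δ y := by rw [h2]; abel
    exact add_left_cancel h3
  have hBc : ∀ i < N, δ (B i) = δ (B 0) := by
    intro i
    induction i with
    | zero => intro _; rfl
    | succ i ih =>
      intro hi
      rw [← ih (by omega), ← hbr _ (hT i hi) _ (hB i (by omega)) (r.braidTBi i hi),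
        hbr _ (hT i hi) _ (hB (i + 1) hi) (r.braidTBj i hi)]
  have hAc : ∀ i < N, δ (A i) = δ (B 0) := fun i hi => by
    rw [hbr _ (hA i hi) _ (hB i hi) (r.braidAB i hi), hBc i hi]
  have hTc : ∀ i, i + 1 < N → δ (T i) = δ (B 0) := fun i hi => by
    rw [hbr _ (hT i hi) _ (hB i (by omega)) (r.braidTBi i hi), hBc i (by omega)]
  have fA0 := hA 0 (by omega)
  have fA1 := hA 1 (by omega)
  have fA2 := hA 2 (by omega)
  have fB0 := hB 0 (by omega)
  have fB1 := hB 1 (by omega)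
  have fT0 := hT 0 (by omega)
  have fT1 := hT 1 (by omega)
  have fS : Ss A B T 0 ∈ P := by
    unfold Ss Sw
    exact mul_mem (mul_mem (mul_mem (mul_mem (mul_mem (mul_mem (mul_mem (mul_mem fA0 fB0) fT0)
      fB1) fA1) (mul_mem (mul_mem (mul_mem fA0 fB0) fT0) fB1)) (mul_mem (mul_mem fA0 fB0) fT0))
      (mul_mem fA0 fB0)) fA0
  have fQ : Qw (A 0) (B 0) ∈ P := by
    unfold Qw Rw
    have h1 := mul_mem (mul_mem fA0 fB0) fA0
    exact mul_mem (mul_mem h1 h1) (mul_mem h1 h1)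
  have e := r.dd2 0 (by omega)
  have fD : Dd A B T 0 ∈ P := by
    have e2 : Dd A B T 0 = (Qw (A 0) (B 0))⁻¹ *
        (Ss A B T 0 * T (0 + 1) * (Ss A B T 0)⁻¹ * Qw (A 0) (B 0)) := by
      rw [← e]; group
    rw [e2]
    exact mul_mem (inv_mem fQ) (mul_mem (mul_mem (mul_mem fS fT1) (inv_mem fS)) fQ)
  have hD : δ (Dd A B T 0) = δ (B 0) := by
    have h2 := congrArg δ e
    rw [hδ _ fQ _ fD, hδ _ (mul_mem (mul_mem fS fT1) (inv_mem fS)) _ fQ,
      hδ _ (mul_mem fS fT1) _ (inv_mem fS), hδ _ fS _ fT1, hinv _ fS] at h2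
    have h3 : δ (T 1) = δ (B 0) := hTc 1 (by omega)
    rw [show T (0 + 1) = T 1 from rfl, h3] at h2
    have h4 : δ (Qw (A 0) (B 0)) + δ (Dd A B T 0) = δ (Qw (A 0) (B 0)) + δ (B 0) := by
      rw [h2]; abel
    exact add_left_cancel h4
  have fAAA : A 0 * A (0 + 1) * A (0 + 2) ∈ P := mul_mem (mul_mem fA0 fA1) fA2
  have fL : Ll A B T 0 ∈ P := mul_mem (mul_mem (mul_mem fT0 fT1) fD) (inv_mem fAAA)
  have hL : δ (Ll A B T 0) = 0 := by
    unfold Ll
    rw [hδ _ (mul_mem (mul_mem fT0 fT1) fD) _ (inv_mem fAAA), hδ _ (mul_mem fT0 fT1) _ fD,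
      hδ _ fT0 _ fT1, hinv _ fAAA, hδ _ (mul_mem fA0 fA1) _ fA2, hδ _ fA0 _ fA1, hD,
      hTc 0 (by omega), hTc (0 + 1) (by omega), hAc 0 (by omega), hAc (0 + 1) (by omega),
      hAc (0 + 2) (by omega)]
    abel
  have hz : δ (B 0) = 0 := by
    rw [← hL]
    exact (hbr _ fL _ fB0 (r.lantern 0 (by omega))).symm
  exact ⟨fun i hi => by rw [hAc i hi, hz], fun i hi => by rw [hBc i hi, hz],
    fun i hi => by rw [hTc i hi, hz]⟩

/-- forget the first handle -/
theorem shift (r : HRel (N + 1) A B al be T tau) :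
    HRel N (fun i => A (i + 1)) (fun i => B (i + 1)) (fun i => al (i + 1))
      (fun i => be (i + 1)) (fun i => T (i + 1)) tau where
  braidAB := fun i hi => r.braidAB (i + 1) (by omega)
  commAA := fun i hi j hj => r.commAA (i + 1) (by omega) (j + 1) (by omega)
  commAB := fun i hi j hj hij => r.commAB (i + 1) (by omega) (j + 1) (by omega) (by omega)
  commBB := fun i hi j hj => r.commBB (i + 1) (by omega) (j + 1) (by omega)
  commAal := fun i hi j hj => r.commAal (i + 1) (by omega) (j + 1) (by omega)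
  commAbe := fun i hi j hj hij => r.commAbe (i + 1) (by omega) (j + 1) (by omega) (by omega)
  commBal := fun i hi j hj hij => r.commBal (i + 1) (by omega) (j + 1) (by omega) (by omega)
  commBbe := fun i hi j hj => r.commBbe (i + 1) (by omega) (j + 1) (by omega)
  A_be := fun i hi => r.A_be (i + 1) (by omega)
  B_al := fun i hi => r.B_al (i + 1) (by omega)
  commTA := fun i hi m hm => r.commTA (i + 1) (by omega) (m + 1) (by omega)
  commTB := fun i hi m hm h1 h2 => r.commTB (i + 1) (by omega) (m + 1) (by omega) (by omega)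
    (by omega)
  commTal := fun i hi m hm h1 h2 => r.commTal (i + 1) (by omega) (m + 1) (by omega) (by omega)
    (by omega)
  commTbe := fun i hi m hm h1 h2 => r.commTbe (i + 1) (by omega) (m + 1) (by omega) (by omega)
    (by omega)
  braidTBi := fun i hi => r.braidTBi (i + 1) (by omega)
  braidTBj := fun i hi => r.braidTBj (i + 1) (by omega)
  T_al_i := fun i hi => r.T_al_i (i + 1) (by omega)
  T_be_i := fun i hi => r.T_be_i (i + 1) (by omega)
  T_al_j := fun i hi => r.T_al_j (i + 1) (by omega)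
  T_be_j := fun i hi => r.T_be_j (i + 1) (by omega)
  commTT := fun i j hij hj => r.commTT (i + 1) (j + 1) (by omega) (by omega)
  sA := fun i hi => r.sA (i + 1) (by omega)
  sA' := fun i hi => r.sA' (i + 1) (by omega)
  sB := fun i hi => r.sB (i + 1) (by omega)
  sB' := fun i hi => r.sB' (i + 1) (by omega)
  sal := fun i hi => r.sal (i + 1) (by omega)
  sbe := fun i hi => r.sbe (i + 1) (by omega)
  dd2 := fun i hi => r.dd2 (i + 1) (by omega)
  lantern := fun i hi => r.lantern (i + 1) (by omega)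
  tauA := fun i hi => r.tauA (i + 1) (by omega)
  tauB := fun i hi => r.tauB (i + 1) (by omega)
  tauAl := fun i hi => r.tauAl (i + 1) (by omega)
  tauBe := fun i hi => r.tauBe (i + 1) (by omega)
  tauT := fun i hi => r.tauT (i + 1) (by omega)

/-- restriction to a subgroup containing the elements -/
theorem pull_sub (r : HRel N A B al be T tau) (C : Subgroup G) (hA : ∀ i < N, A i ∈ C)
    (hB : ∀ i < N, B i ∈ C) (hal : ∀ i < N, al i ∈ C) (hbe : ∀ i < N, be i ∈ C)
    (hT : ∀ i, i + 1 < N → T i ∈ C) (htau : tau ∈ C) :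
    ∃ (A' B' al' be' T' : ℕ → C) (tau' : C), HRel N A' B' al' be' T' tau' ∧
      ∀ i < N, (A' i : G) = A i := by
  classical
  let L : G → C := fun x => if h : x ∈ C then ⟨x, h⟩ else 1
  have hL : ∀ x ∈ C, (L x : G) = x := by
    intro x hx
    simp only [L]
    rw [dif_pos hx]
  refine ⟨fun i => L (A i), fun i => L (B i), fun i => L (al i), fun i => L (be i),
    fun i => L (T i), L tau, ?_, fun i hi => hL _ (hA i hi)⟩
  refine HRel.pull C.subtype C.subtype_injective ?_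
  exact (r.congr (fun i hi => hL _ (hA i hi)) (fun i hi => hL _ (hB i hi))
    (fun i hi => hL _ (hal i hi)) (fun i hi => hL _ (hbe i hi))
    (fun i hi => hL _ (hT i hi))).tau_eq (hL _ htau)

end

end Pool.Agent.E8helper34.SD
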