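import Mathlib
import Pool.Agent.E8helper34.SD.Sq

set_option autoImplicit false

/-! Handle elements acting on modules generated by few elements: modulo a maximal ideal. -/

namespace Pool.Agent.E8helper34.SD

open Pool.Agent.H798R3.MG Pool.Agent.TH35.MG Pool.Agent.R352.MG Module TensorProduct

section
variable {G : Type*} [Group G] {N : ℕ} {A B al be T : ℕ → G} {tau : G}

/-- small dimension over an algebraically closed field -/
theorem alg_one {K V : Type*} [Field K] [AddCommGroup V] [Module K V] [IsAlgClosed K]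
    [FiniteDimensional K V] (r : HRel N A B al be T tau) (ρ : G →* Module.End K V) (hN : 3 ≤ N)
    (h : finrank K V < N - 2) : ρ (A 0) = 1 := by
  have h1 := X_zero r ρ (k := 1) le_rfl (by omega) (by rwa [Nat.choose_one_right]) (by
    refine h.trans ?_
    rw [show N - 1 - 1 = N - 2 by omega]
    exact Nat.lt_two_pow_self)
  have h2 := X_list ρ r.commAA (E := Finset.range 1) (by
    intro i hi
    have := Finset.mem_range.1 hi
    omega) (l := [0]) (by simp) (by intro i; simp)
  rw [h1] at h2
  simp only [List.map_cons, List.map_nil, List.prod_cons, List.prod_nil, mul_one] at h2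
  exact sub_eq_zero.1 h2

/-- once `A_0` acts trivially, so do the others -/
theorem all_one {R : Type*} [Ring R] (r : HRel N A B al be T tau) (ρ : G →* R)
    (h : ρ (A 0) = 1) :
    (∀ i < N, ρ (A i) = 1) ∧ (∀ i < N, ρ (B i) = 1) ∧ ∀ i, i + 1 < N → ρ (T i) = 1 := by
  have hA : ∀ i < N, ρ (A i) = 1 := by
    intro i hi
    obtain ⟨w, hw⟩ := conj_A r i hi
    rw [hw, map_mul, map_mul, h, mul_one, ← map_mul, mul_inv_cancel, map_one]
  have hbr : ∀ x y : G, x * y * x = y * x * y → ρ x = 1 → ρ y = 1 := by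
    intro x y hb hx
    have h1 := congrArg ρ hb
    simp only [map_mul, hx, one_mul, mul_one] at h1
    have h2 : ρ y⁻¹ * ρ y = 1 := by rw [← map_mul, inv_mul_cancel, map_one]
    have h3 := congrArg (fun z => ρ y⁻¹ * z) h1
    simp only [← mul_assoc, h2, one_mul] at h3
    exact h3.symm
  have hB : ∀ i < N, ρ (B i) = 1 := fun i hi => hbr _ _ (r.braidAB i hi) (hA i hi)
  exact ⟨hA, hB, fun i hi => hbr _ _ (r.braidTBi i hi).symm (hB i (by omega))⟩

end

section
variable {R W : Type*} [CommRing R] [AddCommGroup W] [Module R W] (m : Ideal R) [hm : m.IsMaximal]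

/-- an element vanishing after base change lies in `m W` -/
theorem mem_of_tmul {K : Type*} [Field K] [Algebra R K] [Algebra (R ⧸ m) K]
    [IsScalarTower R (R ⧸ m) K] {w : W} (h : (1 : K) ⊗ₜ[R] w = 0) :
    w ∈ (m • ⊤ : Submodule R W) := by
  letI : Field (R ⧸ m) := Ideal.Quotient.field m
  let U := W ⧸ (m • ⊤ : Submodule R W)
  let F : K ⊗[R] W →ₗ[R] K ⊗[R ⧸ m] U := TensorProduct.lift
    (LinearMap.mk₂ R (fun c w => c ⊗ₜ[R ⧸ m] ((m • ⊤ : Submodule R W).mkQ w))
      (by intro a b v; rw [TensorProduct.add_tmul])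
      (by intro r a v; rw [TensorProduct.smul_tmul'])
      (by intro a v w; rw [map_add, TensorProduct.tmul_add])
      (by
        intro r a v
        rw [map_smul]
        have e : r • ((m • ⊤ : Submodule R W).mkQ v) =
          (Ideal.Quotient.mk m r) • ((m • ⊤ : Submodule R W).mkQ v) := rfl
        rw [e, TensorProduct.tmul_smul]
        exact algebraMap_smul (R ⧸ m) r (a ⊗ₜ[R ⧸ m] ((m • ⊤ : Submodule R W).mkQ v))))
  have h1 : F ((1 : K) ⊗ₜ[R] w) = (1 : K) ⊗ₜ[R ⧸ m] ((m • ⊤ : Submodule R W).mkQ w) := rfl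
  rw [h, map_zero] at h1
  have hinj : Function.Injective (TensorProduct.mk (R ⧸ m) K U 1) :=
    Module.FaithfullyFlat.tensorProduct_mk_injective U
  have h2 : (m • ⊤ : Submodule R W).mkQ w = 0 := by
    apply hinj
    rw [map_zero]
    exact h1.symm
  exact (Submodule.Quotient.mk_eq_zero _).1 h2

variable {G : Type*} [Group G] {N : ℕ} {A B al be T : ℕ → G} {tau : G}

/-- the action modulo a maximal ideal -/
theorem base_one (r : HRel N A B al be T tau) (hN : 3 ≤ N) (σ : G →* Module.End R W) {d : ℕ}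
    (s : Fin d → W) (hgen : ∀ w, ∃ c : Fin d → R, w = ∑ i, c i • s i) (hd : d < N - 2) :
    (∀ i < N, ∀ w, σ (A i) w - w ∈ (m • ⊤ : Submodule R W)) ∧
      (∀ i < N, ∀ w, σ (B i) w - w ∈ (m • ⊤ : Submodule R W)) ∧
      ∀ i, i + 1 < N → ∀ w, σ (T i) w - w ∈ (m • ⊤ : Submodule R W) := by
  letI : Field (R ⧸ m) := Ideal.Quotient.field m
  let K := AlgebraicClosure (R ⧸ m)
  let V := K ⊗[R] W
  have hspan : Submodule.span K (Set.range (fun i => (1 : K) ⊗ₜ[R] s i)) = (⊤ : Submodule K V) := by
    rw [eq_top_iff]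
    intro v _
    induction v using TensorProduct.induction_on with
    | zero => exact Submodule.zero_mem _
    | add a b ha hb => exact Submodule.add_mem _ (ha trivial) (hb trivial)
    | tmul c w =>
      obtain ⟨e, rfl⟩ := hgen w
      rw [TensorProduct.tmul_sum]
      refine Submodule.sum_mem _ fun i _ => ?_
      have e1 : c ⊗ₜ[R] (e i • s i) = ((e i • c : K)) • ((1 : K) ⊗ₜ[R] s i) := by
        rw [TensorProduct.smul_tmul', smul_eq_mul, mul_one, TensorProduct.smul_tmul]
      rw [e1]
      exact Submodule.smul_mem _ _ (Submodule.subset_span ⟨i, rfl⟩)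
  have hfd : Module.Finite K V := by
    rw [Module.finite_def, ← hspan]
    exact Submodule.fg_span (Set.finite_range _)
  have hfin : finrank K V ≤ d := by
    rw [← finrank_top, ← hspan]
    exact (finrank_range_le_card _).trans (by simp)
  let Φ : Module.End R W →ₐ[R] Module.End K V := Module.End.baseChangeHom R K W
  let ρ : G →* Module.End K V := (Φ : Module.End R W →* Module.End K V).comp σ
  have h0 := alg_one r ρ hN (by omega)
  obtain ⟨h1, h2, h3⟩ := all_one (R := Module.End K V) r ρ h0
  have key : ∀ x, ρ x = 1 → ∀ w, σ x w - w ∈ (m • ⊤ : Submodule R W) := by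
    intro x hx w
    apply mem_of_tmul m (K := K)
    have h4 := LinearMap.congr_fun hx ((1 : K) ⊗ₜ[R] w)
    have h5 : ρ x ((1 : K) ⊗ₜ[R] w) = (1 : K) ⊗ₜ[R] (σ x w) := rfl
    rw [h5] at h4
    rw [TensorProduct.tmul_sub, h4, Module.End.one_apply, sub_self]
  exact ⟨fun i hi => key _ (h1 i hi), fun i hi => key _ (h2 i hi), fun i hi => key _ (h3 i hi)⟩

end

end Pool.Agent.E8helper34.SD
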