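import Mathlib
import Pool.Agent.E8helper34.SD.Fld
import Pool.Agent.E8helper34.MR.Km

set_option autoImplicit false

/-! Handle elements acting on modules generated by few elements over commutative rings: they act
trivially. -/

namespace Pool.Agent.E8helper34.SD

open Pool.Agent.H798R3.MG Pool.Agent.TH35.MG Pool.Agent.R352.MG Module
open Pool.Agent.E8helper34.MR (sepM)

section
variable {R W G : Type*} [CommRing R] [AddCommGroup W] [Module R W] [Group G]
  (σ : G →* Module.End R W) (m : Ideal R)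

/-- the elements acting trivially modulo `m ^ n` -/
def PG (n : ℕ) : Subgroup G where
  carrier := {x | ∀ w, σ x w - w ∈ (m ^ n • ⊤ : Submodule R W)}
  one_mem' := by
    intro w
    rw [map_one, Module.End.one_apply, sub_self]
    exact Submodule.zero_mem _
  mul_mem' := by
    intro x y hx hy w
    have e : σ (x * y) w - w = σ x (σ y w) - σ y w + (σ y w - w) := by
      rw [map_mul, Module.End.mul_apply]; abel
    rw [e]
    exact Submodule.add_mem _ (hx _) (hy _)
  inv_mem' := by
    intro x hx w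
    have e0 : σ x (σ x⁻¹ w) = w := by
      rw [← Module.End.mul_apply, ← map_mul, mul_inv_cancel, map_one, Module.End.one_apply]
    have h := hx (σ x⁻¹ w)
    rw [e0] at h
    have e : σ x⁻¹ w - w = - (w - σ x⁻¹ w) := by abel
    rw [e]
    exact Submodule.neg_mem _ h

theorem PG_step {x : G} (hx : x ∈ PG σ m 1) {n : ℕ} {w : W}
    (hw : w ∈ (m ^ n • ⊤ : Submodule R W)) : σ x w - w ∈ (m ^ (n + 1) • ⊤ : Submodule R W) := by
  induction hw using Submodule.smul_induction_on' with
  | smul a ha v _ =>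
    rw [map_smul, ← smul_sub, pow_succ, mul_smul]
    have h := hx v
    rw [pow_one] at h
    exact Submodule.smul_mem_smul ha h
  | add v _ w _ h1 h2 =>
    rw [map_add]
    have e : σ x v + σ x w - (v + w) = (σ x v - v) + (σ x w - w) := by abel
    rw [e]
    exact Submodule.add_mem _ h1 h2

theorem PG_anti {n : ℕ} (hn : 1 ≤ n) : PG σ m n ≤ PG σ m 1 := by
  intro x hx w
  exact Submodule.smul_mono_left (Ideal.pow_le_pow_right hn) (hx w)

variable {N : ℕ} {A B al be T : ℕ → G} {tau : G}

theorem PG_all (r : HRel N A B al be T tau) (hN : 3 ≤ N)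
    (h1 : (∀ i < N, A i ∈ PG σ m 1) ∧ (∀ i < N, B i ∈ PG σ m 1) ∧
      ∀ i, i + 1 < N → T i ∈ PG σ m 1) (n : ℕ) :
    (∀ i < N, A i ∈ PG σ m (n + 1)) ∧ (∀ i < N, B i ∈ PG σ m (n + 1)) ∧
      ∀ i, i + 1 < N → T i ∈ PG σ m (n + 1) := by
  induction n with
  | zero => exact h1
  | succ n ih =>
    obtain ⟨hA, hB, hT⟩ := ih
    let Q : Submodule R W := m ^ (n + 1 + 1) • ⊤
    let δ : G → (W → W ⧸ Q) := fun x w => Q.mkQ (σ x w - w)
    have hδ : ∀ x ∈ PG σ m (n + 1), ∀ y ∈ PG σ m (n + 1), δ (x * y) = δ x + δ y := by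
      intro x hx y hy
      funext w
      show Q.mkQ (σ (x * y) w - w) = Q.mkQ (σ x w - w) + Q.mkQ (σ y w - w)
      rw [← map_add, ← sub_eq_zero, ← map_sub]
      have h2 := PG_step σ m (PG_anti σ m (by omega) hx) (hy w)
      have e : σ (x * y) w - w - (σ x w - w + (σ y w - w)) =
          σ x (σ y w - w) - (σ y w - w) := by
        rw [map_mul, Module.End.mul_apply, map_sub]; abel
      rw [e]
      exact (Submodule.Quotient.mk_eq_zero Q).2 h2
    have hz : ∀ x, δ x = 0 → x ∈ PG σ m (n + 1 + 1) := by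
      intro x hx w
      have h2 : Q.mkQ (σ x w - w) = 0 := congrFun hx w
      exact (Submodule.Quotient.mk_eq_zero Q).1 h2
    obtain ⟨a1, a2, a3⟩ := ab_zero (PG σ m (n + 1)) δ hδ r hN hA hB hT
    exact ⟨fun i hi => hz _ (a1 i hi), fun i hi => hz _ (a2 i hi), fun i hi => hz _ (a3 i hi)⟩

/-- Noetherian rings -/
theorem one_noeth [IsNoetherianRing R] (r : HRel N A B al be T tau) (hN : 3 ≤ N) {d : ℕ}
    (s : Fin d → W) (hgen : ∀ w, ∃ c : Fin d → R, w = ∑ i, c i • s i) (hd : d < N - 2) :
    σ (A 0) = 1 := by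
  classical
  have hfin : Module.Finite R W := by
    rw [Module.finite_def]
    refine ⟨Finset.univ.image s, ?_⟩
    rw [eq_top_iff]
    intro w _
    obtain ⟨c, rfl⟩ := hgen w
    refine Submodule.sum_mem _ fun i _ => Submodule.smul_mem _ _ (Submodule.subset_span ?_)
    simp
  ext w
  rw [Module.End.one_apply]
  by_contra hcon
  obtain ⟨m, hm, n, hn⟩ := sepM (R := R) (sub_ne_zero.2 hcon)
  apply hn
  obtain ⟨b1, b2, b3⟩ := base_one m r hN σ s hgen hd
  have h := (PG_all σ m r hN
    ⟨fun i hi w => by rw [pow_one]; exact b1 i hi w, fun i hi w => by rw [pow_one]; exact b2 i hi w,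
      fun i hi w => by rw [pow_one]; exact b3 i hi w⟩ n).1 0 (by omega) w
  exact Submodule.smul_mono_left (Ideal.pow_le_pow_right (Nat.le_succ n)) h

/-- handle elements acting on a module generated by fewer than `N - 2` elements -/
theorem one_small (r : HRel N A B al be T tau) (hN : 3 ≤ N) {d : ℕ}
    (s : Fin d → W) (hgen : ∀ w, ∃ c : Fin d → R, w = ∑ i, c i • s i) (hd : d < N - 2) :
    σ (A 0) = 1 := by
  classical
  have hr : ∀ (y : G) (i : Fin d), ∃ c : Fin d → R, σ y (s i) = ∑ j, c j • s j :=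
    fun y i => hgen _
  choose c hc using hr
  let g0 : Finset G := (Finset.range N).image A ∪ (Finset.range N).image B ∪
    (Finset.range N).image al ∪ (Finset.range N).image be ∪ (Finset.range N).image T ∪ {tau}
  let gens : Finset G := g0 ∪ g0.image (fun x => x⁻¹)
  let S : Finset R := (gens ×ˢ (Finset.univ : Finset (Fin d × Fin d))).image
    (fun p => c p.1 p.2.1 p.2.2)
  let A0 : Subalgebra ℤ R := Algebra.adjoin ℤ (S : Set R)
  have hS : ∀ x ∈ gens, ∀ i j, c x i j ∈ A0 := by
    intro x hx i j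
    apply Algebra.subset_adjoin
    rw [Finset.mem_coe, Finset.mem_image]
    exact ⟨(x, (i, j)), Finset.mem_product.2 ⟨hx, Finset.mem_univ _⟩, rfl⟩
  have hft : Algebra.FiniteType ℤ A0 := (Subalgebra.fg_iff_finiteType A0).1 ⟨S, rfl⟩
  have hNo : IsNoetherianRing A0 := Algebra.FiniteType.isNoetherianRing ℤ A0
  let V₀ : Submodule A0 W := Submodule.span A0 (Set.range s)
  have hsV : ∀ i, s i ∈ V₀ := fun i => Submodule.subset_span ⟨i, rfl⟩
  have hst0 : ∀ y ∈ gens, ∀ w ∈ V₀, σ y w ∈ V₀ := by
    intro y hy w hw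
    induction hw using Submodule.span_induction with
    | mem w hw =>
      obtain ⟨i, rfl⟩ := hw
      rw [hc]
      refine Submodule.sum_mem _ fun j _ => ?_
      exact V₀.smul_mem (⟨c y i j, hS y hy i j⟩ : A0) (hsV j)
    | zero => rw [map_zero]; exact V₀.zero_mem
    | add w w' _ _ h1 h2 => rw [map_add]; exact V₀.add_mem h1 h2
    | smul a w _ h1 =>
      have e : σ y (a • w) = a • σ y w := map_smul (σ y) (a : R) w
      rw [e]
      exact V₀.smul_mem a h1
  let C : Subgroup G :=
    { carrier := {y | (∀ w ∈ V₀, σ y w ∈ V₀) ∧ ∀ w ∈ V₀, σ y⁻¹ w ∈ V₀}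
      one_mem' := by
        have h2 : ∀ w ∈ V₀, σ 1 w ∈ V₀ := by
          intro w hw
          rw [map_one]
          exact hw
        refine ⟨h2, ?_⟩
        rw [inv_one]
        exact h2
      mul_mem' := by
        intro x y h1 h2
        refine ⟨?_, ?_⟩
        · intro w hw
          rw [map_mul]
          exact h1.1 _ (h2.1 w hw)
        · intro w hw
          rw [_root_.mul_inv_rev, map_mul]
          exact h2.2 _ (h1.2 w hw)
      inv_mem' := by
        intro x h1
        refine ⟨h1.2, ?_⟩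
        rw [inv_inv]
        exact h1.1 }
  have hg0 : ∀ x ∈ g0, x ∈ C := by
    intro x hx
    refine ⟨hst0 _ (Finset.mem_union_left _ hx), hst0 _ (Finset.mem_union_right _ ?_)⟩
    exact Finset.mem_image_of_mem (fun x => x⁻¹) hx
  have hm : ∀ x : G, x ∈ g0 ↔ (∃ i < N, A i = x) ∨ (∃ i < N, B i = x) ∨ (∃ i < N, al i = x) ∨
      (∃ i < N, be i = x) ∨ (∃ i < N, T i = x) ∨ x = tau := by
    intro x
    simp only [g0, Finset.mem_union, Finset.mem_image, Finset.mem_range, Finset.mem_singleton,
      or_assoc]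
  obtain ⟨A', B', al', be', T', tau', r', hA'⟩ := pull_sub r C
    (fun i hi => hg0 _ ((hm _).2 (Or.inl ⟨i, hi, rfl⟩)))
    (fun i hi => hg0 _ ((hm _).2 (Or.inr (Or.inl ⟨i, hi, rfl⟩))))
    (fun i hi => hg0 _ ((hm _).2 (Or.inr (Or.inr (Or.inl ⟨i, hi, rfl⟩)))))
    (fun i hi => hg0 _ ((hm _).2 (Or.inr (Or.inr (Or.inr (Or.inl ⟨i, hi, rfl⟩))))))
    (fun i hi => hg0 _ ((hm _).2 (Or.inr (Or.inr (Or.inr (Or.inr (Or.inl
      ⟨i, by omega, rfl⟩)))))))
    (hg0 _ ((hm _).2 (Or.inr (Or.inr (Or.inr (Or.inr (Or.inr rfl)))))))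
  let σ₀ : C →* Module.End A0 V₀ :=
    { toFun := fun y =>
        { toFun := fun w => ⟨σ y w, y.2.1 w w.2⟩
          map_add' := by
            intro w w'
            apply Subtype.ext
            exact map_add (σ y) (w : W) w'
          map_smul' := by
            intro a w
            apply Subtype.ext
            exact map_smul (σ y) (a : R) (w : W) }
      map_one' := by
        apply LinearMap.ext
        intro w
        apply Subtype.ext
        show σ 1 (w : W) = w
        rw [map_one]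
        rfl
      map_mul' := by
        intro x y
        apply LinearMap.ext
        intro w
        apply Subtype.ext
        show σ ((x : G) * y) (w : W) = σ x (σ y (w : W))
        rw [map_mul]
        rfl }
  have h1 := one_noeth σ₀ r' hN (fun i => (⟨s i, hsV i⟩ : V₀)) (by
    intro w
    obtain ⟨e, he⟩ := (Submodule.mem_span_range_iff_exists_fun A0).1 w.2
    refine ⟨e, ?_⟩
    apply Subtype.ext
    rw [← he]
    simp) hd
  have h2 : ∀ i, σ (A 0) (s i) = s i := by
    intro i
    have h3 := LinearMap.congr_fun h1 (⟨s i, hsV i⟩ : V₀)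
    have h4 := congrArg Subtype.val h3
    have h5 : σ ((A' 0 : C) : G) (s i) = s i := h4
    rwa [hA' 0 (by omega)] at h5
  apply LinearMap.ext
  intro w
  obtain ⟨e, rfl⟩ := hgen w
  rw [map_sum, Module.End.one_apply]
  exact Finset.sum_congr rfl fun i _ => by rw [map_smul, h2]

end

end Pool.Agent.E8helper34.SD
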