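import Mathlib
import Pool.Agent.E8helper34.SD.Ind
import Pool.Agent.E8helper34.QA.Dec

set_option autoImplicit false

/-! Small displacement implies quadratic. -/

namespace Pool.Agent.E8helper34.SD

open Pool.Agent.H798R3.MG Pool.Agent.H29R2.MG Pool.Agent.TH35.MG Pool.Agent.R352.MG Module
open Pool.Agent.E8helper34.MR (HG tM aM tM_zero setupM twA)
open Pool.Agent.E8helper34.QA (Quad)

section
variable {R V G : Type*} [CommRing R] [AddCommGroup V] [Module R V] [Group G]
  {N : ℕ} {A B al be T : ℕ → G} {tau : G}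

/-- if `A_0` has small displacement, the products over two handles vanish -/
theorem prod_small (ρ : G →* Module.End R V) (r : HRel (N + 1) A B al be T tau) (hN : 3 ≤ N)
    {d : ℕ} (s : Fin d → V) (hs : ∀ i, ∃ v, s i = ρ (A 0) v - v)
    (hgen : ∀ v, ∃ c : Fin d → R, ρ (A 0) v - v = ∑ i, c i • s i) (hd : d < N - 2) :
    (ρ (A 1) - 1) * (ρ (A 0) - 1) = 0 := by
  let W : Submodule R V := LinearMap.range (ρ (A 0) - 1)
  have hW : ∀ w, w ∈ W ↔ ∃ v, ρ (A 0) v - v = w := fun w => Iff.rfl
  let C : Subgroup G := Subgroup.centralizer {A 0}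
  have hC : ∀ x : G, Commute x (A 0) → x ∈ C := by
    intro x hx
    rw [Subgroup.mem_centralizer_iff]
    intro y hy
    rw [Set.mem_singleton_iff.1 hy]
    exact hx.symm.eq
  have hC' : ∀ x ∈ C, ∀ w ∈ W, ρ x w ∈ W := by
    intro x hx w hw
    obtain ⟨v, rfl⟩ := (hW w).1 hw
    have e : A 0 * x = x * A 0 := Subgroup.mem_centralizer_iff.1 hx _ rfl
    rw [hW]
    refine ⟨ρ x v, ?_⟩
    rw [map_sub, ← Module.End.mul_apply, ← Module.End.mul_apply, ← map_mul, ← map_mul, e]
  obtain ⟨A', B', al', be', T', tau', r', hA'⟩ := pull_sub (shift r) C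
    (fun i hi => hC _ (r.commAA (i + 1) (by omega) 0 (by omega)))
    (fun i hi => hC _ (r.commAB 0 (by omega) (i + 1) (by omega) (by omega)).symm)
    (fun i hi => hC _ (r.commAal 0 (by omega) (i + 1) (by omega)).symm)
    (fun i hi => hC _ (r.commAbe 0 (by omega) (i + 1) (by omega) (by omega)).symm)
    (fun i hi => hC _ (r.commTA (i + 1) (by omega) 0 (by omega)))
    (hC _ (r.tauA 0 (by omega)))
  let σ : C →* Module.End R W :=
    { toFun := fun y =>
        { toFun := fun w => ⟨ρ y w, hC' y y.2 w w.2⟩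
          map_add' := by
            intro w w'
            apply Subtype.ext
            exact map_add (ρ y) (w : V) w'
          map_smul' := by
            intro a w
            apply Subtype.ext
            exact map_smul (ρ y) a (w : V) }
      map_one' := by
        apply LinearMap.ext
        intro w
        apply Subtype.ext
        show ρ 1 (w : V) = w
        rw [map_one]
        rfl
      map_mul' := by
        intro x y
        apply LinearMap.ext
        intro w
        apply Subtype.ext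
        show ρ ((x : G) * y) (w : V) = ρ x (ρ y (w : V))
        rw [map_mul]
        rfl }
  have hsW : ∀ i, s i ∈ W := fun i => by
    obtain ⟨v, hv⟩ := hs i
    exact (hW _).2 ⟨v, hv.symm⟩
  have h1 := one_small σ r' hN (fun i => (⟨s i, hsW i⟩ : W)) (by
    intro w
    obtain ⟨v, hv⟩ := (hW w).1 w.2
    obtain ⟨c, hc⟩ := hgen v
    refine ⟨c, ?_⟩
    apply Subtype.ext
    rw [← hv, hc]
    simp) hd
  apply LinearMap.ext
  intro v
  have h3 := LinearMap.congr_fun h1 (⟨ρ (A 0) v - v, (hW _).2 ⟨v, rfl⟩⟩ : W)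
  have h4 := congrArg Subtype.val h3
  have h5 : ρ ((A' 0 : C) : G) (ρ (A 0) v - v) = ρ (A 0) v - v := h4
  have h6 : ((A' 0 : C) : G) = A 1 := hA' 0 (by omega)
  rw [h6] at h5
  show ρ (A 1) (ρ (A 0) v - v) - (ρ (A 0) v - v) = 0
  rw [h5, sub_self]

end

/-- Humphries' group: small displacement implies quadratic -/
theorem quad_small {g : ℕ} {R V : Type*} [CommRing R] [AddCommGroup V] [Module R V]
    (ρ : HG g →* Module.End R V) {d : ℕ} (hd : d + 6 < g) (s : Fin d → V)
    (hs : ∀ i, ∃ v, s i = ρ (tM g 0) v - v)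
    (hgen : ∀ v, ∃ c : Fin d → R, ρ (tM g 0) v - v = ∑ i, c i • s i) : Quad ρ := by
  have hg : 7 ≤ g := by omega
  obtain ⟨Γ, A, B, al, be, T, tau, q, r, hA⟩ := setupM hg
  have hq : ∀ i < g - 3, q (A i) = aM g i := by
    intro i hi
    apply Subtype.ext
    rw [hA i hi, twA hg (by omega)]
  have e3 : g - 3 = (g - 4) + 1 := by omega
  have r1 : HRel ((g - 4) + 1) A B al be T tau := e3 ▸ r
  have h0 : tM g 0 = q (A 0) := by rw [hq 0 (by omega), tM_zero (by omega)]
  have h1 : aM g 1 = q (A 1) := (hq 1 (by omega)).symm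
  have h10 : ((ρ.comp q) (A 1) - 1) * ((ρ.comp q) (A 0) - 1) = 0 := by
    refine prod_small (ρ.comp q) r1 ?_ s ?_ ?_ ?_
    · omega
    · intro i
      obtain ⟨v, hv⟩ := hs i
      exact ⟨v, by rw [hv, h0]; rfl⟩
    · intro v
      obtain ⟨c, hc⟩ := hgen v
      exact ⟨c, by rw [← hc, h0]; rfl⟩
    · omega
  set θ := ρ.comp q with hθ
  have hX := X_list θ r.commAA (E := {1, 0}) (by
      intro i hi
      simp only [Finset.mem_insert, Finset.mem_singleton] at hi
      omega) (l := [1, 0]) (by simp) (by intro i; simp)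
  simp only [List.map_cons, List.map_nil, List.prod_cons, List.prod_nil, mul_one] at hX
  rw [h10] at hX
  have hX2 := (X_move (h := r.commAA) r θ (E := {1, 0}) (by
      intro i hi
      simp only [Finset.mem_insert, Finset.mem_singleton] at hi
      omega)).1 hX.symm
  have hc : ({1, 0} : Finset ℕ).card = ({1, 2} : Finset ℕ).card := rfl
  rw [hc] at hX2
  have hX3 := (X_move (h := r.commAA) r θ (E := {1, 2}) (by
      intro i hi
      simp only [Finset.mem_insert, Finset.mem_singleton] at hi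
      omega)).2 hX2
  have hX4 := X_list θ r.commAA (E := {1, 2}) (by
      intro i hi
      simp only [Finset.mem_insert, Finset.mem_singleton] at hi
      omega) (l := [1, 2]) (by simp) (by intro i; simp)
  simp only [List.map_cons, List.map_nil, List.prod_cons, List.prod_nil, mul_one] at hX4
  rw [hX3] at hX4
  have h22 := sq_A r (by omega) θ hX4
  have h00 : (θ (A 0) - 1) * (θ (A 0) - 1) = 0 := by
    obtain ⟨w, hw⟩ := conj_A r 2 (by omega)
    have h5 : θ w⁻¹ * θ w = 1 := by rw [← map_mul, inv_mul_cancel, map_one]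
    have h6 : θ w * θ w⁻¹ = 1 := by rw [← map_mul, mul_inv_cancel, map_one]
    have e1 : θ (A 0) - 1 = θ w⁻¹ * (θ (A 2) - 1) * θ w := by
      rw [mul_sub, sub_mul, mul_one, h5, ← map_mul, ← map_mul, hw]
      congr 2
      group
    rw [e1]
    calc θ w⁻¹ * (θ (A 2) - 1) * θ w * (θ w⁻¹ * (θ (A 2) - 1) * θ w)
        = θ w⁻¹ * (θ (A 2) - 1) * (θ w * θ w⁻¹) * (θ (A 2) - 1) * θ w := by noncomm_ring
      _ = θ w⁻¹ * ((θ (A 2) - 1) * (θ (A 2) - 1)) * θ w := by rw [h6]; noncomm_ring
      _ = 0 := by rw [h22, mul_zero, zero_mul]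
  refine ⟨?_, ?_⟩
  · rw [h0]
    exact h00
  · rw [h0, h1]
    exact h10

end Pool.Agent.E8helper34.SD
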