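import Mathlib
import Pool.Agent.E8helper34.QA.Dec
import Pool.Agent.E8helper34.SD.App

set_option autoImplicit false

/-! The twist about `a_p` and the chain. -/

namespace Pool.Agent.E8helper34.SD

open Pool.Agent.H29R2.MG Pool.Agent.TH35.MG Pool.Agent.R352.MG
open Pool.Agent.R665.MGR (hT hT_fa hT_fb app_mk tt tt_lt chainTwist HumRel)
open Pool.Agent.E8helper34.MC (AA AA_twist)
open Pool.Agent.E8helper34.MR (HG tM aM tM_coe aM_coe)

section
variable {g : ℕ}

theorem hT_ee (p : ℕ) (i : Fin g) : hT g p (ee i) = ee i := by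
  unfold ee
  rw [map_mul, hT_fa]
  congr 1
  by_cases h : 0 < (i : ℕ)
  · rw [dif_pos h, map_mul, map_mul, map_inv, map_inv, hT_fa, hT_fb]
    split_ifs
    · group
    · rfl
  · rw [dif_neg h, map_one]

theorem hT_fv (p : ℕ) (j : Fin (2 * g)) (hj : (j : ℕ) ≠ 2 * p + 1) :
    (hT g p).comp (fv j) = (fv j).comp (hT g p) := by
  by_cases h2 : (j : ℕ) % 2 = 0
  · have e : fv j = stepE ⟨j / 2, by omega⟩ (ee ⟨j / 2, by omega⟩) := by
      unfold fv; rw [if_pos h2]
    generalize (⟨(j : ℕ) / 2, by omega⟩ : Fin g) = i at e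
    rw [e]
    have hx := hT_ee p i
    generalize ee i = x at hx
    apply free_ext
    · intro m
      rw [MonoidHom.comp_apply, MonoidHom.comp_apply, hT_fa, stepE_fa]
      by_cases h3 : m = i
      · rw [if_pos h3, map_mul, map_mul, map_inv, hx, hT_fa]
      · rw [if_neg h3, hT_fa]
    · intro m
      rw [MonoidHom.comp_apply, MonoidHom.comp_apply, hT_fb, stepE_fb]
      by_cases h1 : (m : ℕ) = p
      · rw [if_pos h1, map_mul, stepE_fb, stepE_fa]
        by_cases h3 : m = i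
        · rw [if_pos h3, if_pos h3, map_mul, hT_fb, if_pos h1, hx]
          group
        · rw [if_neg h3, if_neg h3]
          by_cases h4 : (m : ℕ) + 1 = i
          · rw [if_pos h4, map_mul, map_inv, hx, hT_fb, if_pos h1]
            group
          · rw [if_neg h4, hT_fb, if_pos h1]
      · rw [if_neg h1, stepE_fb]
        by_cases h3 : m = i
        · rw [if_pos h3, map_mul, hT_fb, if_neg h1, hx]
        · rw [if_neg h3]
          by_cases h4 : (m : ℕ) + 1 = i
          · rw [if_pos h4, map_mul, map_inv, hx, hT_fb, if_neg h1]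
          · rw [if_neg h4, hT_fb, if_neg h1]
  · have e : fv j = stepA ⟨j / 2, by omega⟩ (fb ⟨j / 2, by omega⟩) := by
      unfold fv; rw [if_neg h2]
    have hi : ((⟨(j : ℕ) / 2, by omega⟩ : Fin g) : ℕ) ≠ p := by
      show (j : ℕ) / 2 ≠ p
      omega
    generalize (⟨(j : ℕ) / 2, by omega⟩ : Fin g) = i at e hi
    rw [e]
    apply free_ext
    · intro m
      rw [MonoidHom.comp_apply, MonoidHom.comp_apply, hT_fa, stepA_fa]
      by_cases h3 : m = i
      · rw [if_pos h3, map_mul, map_inv, hT_fa, hT_fb, if_neg hi]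
      · rw [if_neg h3, hT_fa]
    · intro m
      rw [MonoidHom.comp_apply, MonoidHom.comp_apply, hT_fb, stepA_fb, hT_fb]
      by_cases h1 : (m : ℕ) = p
      · have h3 : m ≠ i := fun e => hi (e ▸ h1)
        rw [if_pos h1, map_mul, stepA_fb, stepA_fa, if_neg h3]
      · rw [if_neg h1, stepA_fb]

theorem hT_braid (p : ℕ) (j : Fin (2 * g)) (hj : (j : ℕ) = 2 * p + 1) :
    (fv j).comp ((hT g p).comp (fv j)) = (hT g p).comp ((fv j).comp (hT g p)) := by
  have e : fv j = stepA ⟨j / 2, by omega⟩ (fb ⟨j / 2, by omega⟩) := by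
    unfold fv; rw [if_neg (by omega)]
  have hi : ((⟨(j : ℕ) / 2, by omega⟩ : Fin g) : ℕ) = p := by
    show (j : ℕ) / 2 = p
    omega
  generalize (⟨(j : ℕ) / 2, by omega⟩ : Fin g) = i at e hi
  rw [e]
  apply free_ext
  · intro m
    simp only [MonoidHom.comp_apply]
    rw [hT_fa, stepA_fa]
    by_cases h3 : m = i
    · subst h3
      rw [if_pos rfl, map_mul, map_inv, hT_fa, hT_fb, if_pos hi, map_mul, map_inv, map_mul,
        stepA_fa, if_pos rfl, stepA_fb]
      group
    · rw [if_neg h3, hT_fa, stepA_fa, if_neg h3]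
  · intro m
    simp only [MonoidHom.comp_apply]
    rw [hT_fb, stepA_fb, hT_fb]
    by_cases h1 : (m : ℕ) = p
    · have h3 : m = i := Fin.ext (h1.trans hi.symm)
      subst h3
      rw [if_pos h1, map_mul, stepA_fb, stepA_fa, if_pos rfl, map_mul, map_mul, map_inv, hT_fa,
        hT_fb, if_pos h1]
      group
    · rw [if_neg h1, stepA_fb, hT_fb, if_neg h1]

theorem comm_tt {p : ℕ} {T : Mod g} (hT' : IsTwistAt g p T) {j : ℕ} (hj : j < 2 * g)
    (h3 : j ≠ 2 * p + 1) : Commute T (tt g j) := by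
  obtain ⟨τ, rfl, h⟩ := hT'
  rw [tt_lt hj]
  have h1 := hT_fv (g := g) p ⟨j, hj⟩ h3
  have h2 : τ * (⟨sv ⟨j, hj⟩, sv_pres _⟩ : orientedAut g) = ⟨sv ⟨j, hj⟩, sv_pres _⟩ * τ := by
    apply Subtype.ext
    apply MulEquiv.ext
    intro y
    obtain ⟨x, rfl⟩ := mk_surjective g y
    simp only [Subgroup.coe_mul, MulAut.mul_apply, sv_mk, app_mk h]
    have := DFunLike.congr_fun h1 x
    simp only [MonoidHom.comp_apply] at this
    rw [this]
  exact congrArg (classOf g) h2

theorem braid_tt {p : ℕ} (hp : p < g) {T : Mod g} (hT' : IsTwistAt g p T) :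
    tt g (2 * p + 1) * T * tt g (2 * p + 1) = T * tt g (2 * p + 1) * T := by
  obtain ⟨τ, rfl, h⟩ := hT'
  rw [tt_lt (show 2 * p + 1 < 2 * g by omega)]
  have h1 := hT_braid (g := g) p ⟨2 * p + 1, by omega⟩ rfl
  have h2 : (⟨sv ⟨2 * p + 1, by omega⟩, sv_pres _⟩ : orientedAut g) * τ *
      ⟨sv ⟨2 * p + 1, by omega⟩, sv_pres _⟩ =
      τ * ⟨sv ⟨2 * p + 1, by omega⟩, sv_pres _⟩ * τ := by
    apply Subtype.ext
    apply MulEquiv.ext
    intro y
    obtain ⟨x, rfl⟩ := mk_surjective g y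
    simp only [Subgroup.coe_mul, MulAut.mul_apply, sv_mk, app_mk h]
    have := DFunLike.congr_fun h1 x
    simp only [MonoidHom.comp_apply] at this
    rw [this]
  exact congrArg (classOf g) h2

theorem comm_aM {p j : ℕ} (hg : 2 ≤ g) (hp : p < g) (hj : j < 2 * g) (h : j ≠ 2 * p + 1) :
    Commute (aM g p) (tM g j) := by
  apply Subtype.ext
  show ((aM g p : HG g) : Mod g) * tM g j = tM g j * aM g p
  rw [tM_coe, aM_coe hg hp]
  exact comm_tt (AA_twist hp) hj h

theorem braid_aM {p : ℕ} (hg : 2 ≤ g) (hp : p < g) :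
    tM g (2 * p + 1) * aM g p * tM g (2 * p + 1) = aM g p * tM g (2 * p + 1) * aM g p := by
  apply Subtype.ext
  simp only [Subgroup.coe_mul, tM_coe, aM_coe hg hp]
  exact braid_tt hp (AA_twist hp)

end

end Pool.Agent.E8helper34.SD
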