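import Mathlib
import Pool.Agent.E8helper34.SD.Hum
import Pool.Agent.E8helper34.M4.Cnt

set_option autoImplicit false

/-! Quadratic representations of dimension less than `2 h` of the group of genus `h` are
trivial. -/

namespace Pool.Agent.E8helper34.SD

open Pool.Agent.H798R3.MG Pool.Agent.TH35.MG Pool.Agent.R352.MG Module
open Pool.Agent.R665.MGR (HumRel)
open Pool.Agent.E8helper34.QA

section
variable {K V : Type*} [Field K] [AddCommGroup V] [Module K V] {h : ℕ}
  {N : ℕ → Module.End K V} {E : Module.End K V}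

/-- if a member of the chain is invariant, the first one vanishes -/
theorem w_zero (r : NRel (2 * h) N E) (hh : 3 ≤ h) {y : V} (hy : y ∈ Vim (2 * h) N E) :
    ∀ j < 2 * h, ww N y j ∈ Vinv (2 * h) N E → ww N y 0 = 0 := by
  intro j
  induction j with
  | zero =>
    intro _ h0
    have h1 : ww N y 1 = 0 := by
      have e := ww_succ (N := N) y 0
      rw [show 0 + 1 = 1 from rfl, N_Vinv h0 (by omega)] at e
      exact neg_eq_zero.1 e.symm
    have h2 := ww_down r (by omega) hy (j := 0) (by omega)
    rw [← h2, show 0 + 1 = 1 from rfl, h1, map_zero]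
  | succ j ih =>
    intro hj h0
    apply ih (by omega)
    have h2 := ww_down r (by omega) hy hj
    rw [← h2, N_Vinv h0 (by omega)]
    exact Submodule.zero_mem _

/-- independence of the family -/
theorem ub_indep (r : NRel (2 * h) N E) (hh : 3 ≤ h) {y : V} (hy : y ∈ Vim (2 * h) N E)
    (hne : ww N y 0 ≠ 0) : LinearIndependent K (ub h (ww N y)) := by
  have rr := rrel r (by omega) hy
  have hn : ∀ j < 2 * h, ∀ a : K, a • ww N y j ∈ Vinv (2 * h) N E → a = 0 := by
    intro j hj a ha
    by_contra hcon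
    apply hne
    apply w_zero r hh hy j hj
    have := Submodule.smul_mem _ a⁻¹ ha
    rwa [smul_smul, inv_mul_cancel₀ hcon, one_smul] at this
  rw [Fintype.linearIndependent_iff]
  intro c hc
  have hl : ∀ i : Fin h, c (Sum.inl i) = 0 := by
    intro i
    have g1 := gen_odd rr i
    have h1 := lin_mod (N (2 * i + 1)) (ub h (ww N y)) c _ _ g1.rel
    rw [hc, map_zero, zero_add] at h1
    have h2 := hn _ (by omega) _ h1
    rw [Finset.sum_eq_single (Sum.inl i)] at h2
    · simpa [sf] using h2
    · rintro (m | m) _ hm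
      · have : m ≠ i := fun e => hm (by rw [e])
        simp [sf, Pi.single_apply, this]
      · simp [sf]
    · intro hx; exact absurd (Finset.mem_univ _) hx
  have hc2 : ∑ m : Fin h, c (Sum.inr m) • ww N y (2 * m + 1) = 0 := by
    rw [Fintype.sum_sum_type] at hc
    simp only [hl, zero_smul, Finset.sum_const_zero, zero_add] at hc
    exact hc
  have key : ∀ i : Fin h, ∑ m : Fin h, c (Sum.inr m) *
      -(if (m : ℕ) = i then (1 : K) else if (m : ℕ) + 1 = i then -1 else 0) = 0 := by
    intro i
    have h1 := lin_mod (W1 := Vinv (2 * h) N E) (N (2 * i)) (fun m : Fin h => ww N y (2 * m + 1))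
      (fun m => c (Sum.inr m))
      (fun m => -(if (m : ℕ) = i then (1 : K) else if (m : ℕ) + 1 = i then -1 else 0))
      (ww N y (2 * i)) (by
        intro m
        have h5 := B5 rr (i := i) (m := m) (by omega) (by omega)
        rw [neg_smul, ← sub_eq_add_neg]
        exact h5)
    rw [hc2, map_zero, zero_add] at h1
    exact hn _ (by omega) _ h1
  have hr : ∀ n : ℕ, ∀ hn : n < h, c (Sum.inr ⟨n, hn⟩) = 0 := by
    intro n
    induction n with
    | zero =>
      intro h0
      have h1 := key ⟨0, h0⟩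
      rw [Finset.sum_eq_single (⟨0, h0⟩ : Fin h)] at h1
      · simpa using h1
      · intro m _ hm
        have : (m : ℕ) ≠ 0 := fun e => hm (Fin.ext e)
        simp [this]
      · intro hx; exact absurd (Finset.mem_univ _) hx
    | succ n ih =>
      intro h0
      have h1 := key ⟨n + 1, h0⟩
      rw [Finset.sum_eq_single (⟨n + 1, h0⟩ : Fin h)] at h1
      · simpa using h1
      · intro m _ hm
        have h2 : (m : ℕ) ≠ n + 1 := fun e => hm (Fin.ext e)
        by_cases h3 : (m : ℕ) = n
        · have : m = ⟨n, by omega⟩ := Fin.ext h3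
          rw [this, ih (by omega), zero_mul]
        · have h4 : ¬ ((m : ℕ) + 1 = n + 1) := by omega
          simp only [h2, h4, if_false]
          simp
      · intro hx; exact absurd (Finset.mem_univ _) hx
  rintro (i | i)
  · exact hl i
  · exact hr i i.2

/-- in dimension less than `2 h` the products of neighbours vanish -/
theorem N01 [FiniteDimensional K V] (r : NRel (2 * h) N E) (hh : 3 ≤ h)
    (hd : finrank K V < 2 * h) (v : V) : N 0 (N 1 v) = 0 := by
  by_contra hne
  have h1 := ub_indep r hh (y := N 1 v) (N_mem_Vim (by omega) v) hne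
  have h2 := h1.fintype_card_le_finrank
  rw [Fintype.card_sum, Fintype.card_fin] at h2
  omega

end

section
variable {G H : Type*} [Group G] [Group H] {N h : ℕ} {A B al be T : ℕ → G} {tau : G}
  {t : ℕ → G} {e : G}

theorem eq_of_bc {x y : H} (hb : x * y * x = y * x * y) (hc : Commute x y) : x = y := by
  rw [mul_assoc, mul_assoc, hc.eq] at hb
  have h1 : x * (y * x) = y * (y * x) := hb
  exact mul_right_cancel h1

/-- equality of two of the twists forces triviality -/
theorem eq_one (φ : G →* H) (r : HRel N A B al be T tau) (hN : 3 ≤ N) (h : φ (A 0) = φ (A 1)) :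
    φ (A 0) = 1 := by
  have br : ∀ x y : G, x * y * x = y * x * y → φ x * φ y * φ x = φ y * φ x * φ y := by
    intro x y hb
    have := congrArg φ hb
    simpa only [map_mul] using this
  have cm : ∀ x y : G, Commute x y → Commute (φ x) (φ y) := fun x y hc => hc.map φ
  set a := φ (A 0) with ha
  have b0 : φ (B 0) = a := by
    have h1 := cm _ _ (r.commAB 1 (by omega) 0 (by omega) (by omega))
    rw [← h] at h1
    exact (eq_of_bc (br _ _ (r.braidAB 0 (by omega))) h1).symm
  have b1 : φ (B 1) = a := by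
    have h1 := cm _ _ (r.commAB 0 (by omega) 1 (by omega) (by omega))
    have h2 := br _ _ (r.braidAB 1 (by omega))
    rw [← h] at h2
    exact (eq_of_bc h2 h1).symm
  have t0 : φ (T 0) = a := by
    have h1 := cm _ _ (r.commTA 0 (by omega) 0 (by omega))
    have h2 := br _ _ (r.braidTBi 0 (by omega))
    rw [b0] at h2
    exact eq_of_bc h2 h1
  have t1 : φ (T 1) = a := by
    have h1 := cm _ _ (r.commTA 1 (by omega) 0 (by omega))
    have h2 := br _ _ (r.braidTBi 1 (by omega))
    rw [b1] at h2
    exact eq_of_bc h2 h1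
  have b2 : φ (B 2) = a := by
    have h1 := cm _ _ (r.commAB 0 (by omega) 2 (by omega) (by omega))
    have h2 := br _ _ (r.braidTBj 1 (by omega))
    rw [show (1 : ℕ) + 1 = 2 from rfl, t1] at h2
    exact (eq_of_bc h2 h1).symm
  have a2 : φ (A 2) = a := by
    have h1 := cm _ _ (r.commAA 2 (by omega) 0 (by omega))
    have h2 := br _ _ (r.braidAB 2 (by omega))
    rw [b2] at h2
    exact eq_of_bc h2 h1
  have hD : φ (Dd A B T 0) = a := by
    have h1 := congrArg φ (r.dd2 0 (by omega))
    have hQ : φ (Qw (A 0) (B 0)) = a ^ 12 := by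
      unfold Qw Rw
      simp only [map_mul, b0, ← ha]
      simp only [← mul_assoc, pow_succ, pow_zero, one_mul]
    have hS : φ (Ss A B T 0) = a ^ 15 := by
      unfold Ss Sw
      simp only [map_mul, b0, b1, t0, ← ha, ← h, zero_add]
      simp only [← mul_assoc, pow_succ, pow_zero, one_mul]
    rw [map_mul, map_mul, map_mul, map_mul, map_inv, hQ, hS, show (0 : ℕ) + 1 = 1 from rfl,
      t1] at h1
    have h2 : φ (Dd A B T 0) = (a ^ 12)⁻¹ * (a ^ 15 * a * (a ^ 15)⁻¹ * a ^ 12) := by
      rw [← h1]; group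
    rw [h2]
    group
  have hL : φ (Ll A B T 0) = 1 := by
    unfold Ll
    simp only [map_mul, map_inv, hD, t0, zero_add, t1, a2, ← h, ← ha]
    group
  have h1 := br _ _ (r.lantern 0 (by omega))
  rw [hL, b0, one_mul, mul_one] at h1
  exact left_eq_mul.1 h1

/-- handle elements together with a chain -/
structure Pk (N h : ℕ) (A B al be T : ℕ → G) (tau : G) (t : ℕ → G) (e : G) : Prop where
  r : HRel N A B al be T tau
  hum : HumRel (2 * h) t e
  t0 : t 0 = A 0
  e1 : e = A 1

/-- small dimension over an algebraically closed field -/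
theorem alg_one2 {K V : Type*} [Field K] [AddCommGroup V] [Module K V] [IsAlgClosed K]
    [FiniteDimensional K V] (p : Pk N h A B al be T tau t e) (ρ : G →* Module.End K V)
    (hN : 5 ≤ N) (hh : 3 ≤ h)
    (h1 : finrank K V < 4 * (N - 2).choose 2) (h2 : finrank K V < 2 ^ (N - 3))
    (h3 : finrank K V < 2 * h) : ρ (A 0) = 1 := by
  have r := p.r
  have h0 : X ρ r.commAA (Finset.range 2) = 0 :=
    Pool.Agent.E8helper34.M4.X_zero4 r ρ (k := 2) (by omega) (by omega)
      (by rw [show (2 : ℕ) ^ 2 = 4 by norm_num]; exact h1)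
      (by rwa [show N - 1 - 2 = N - 3 by omega])
  have mv : ∀ i < N, ∀ j < N, i ≠ j → (ρ (A i) - 1) * (ρ (A j) - 1) = 0 := by
    intro i hi j hj hij
    have h4 := X_list ρ r.commAA (E := {i, j}) (by
      intro k hk
      simp only [Finset.mem_insert, Finset.mem_singleton] at hk
      omega) (l := [i, j]) (by simp [hij]) (by intro k; simp)
    have h5 := (X_move (h := r.commAA) r ρ (E := {i, j}) (by
      intro k hk
      simp only [Finset.mem_insert, Finset.mem_singleton] at hk
      omega)).2 (by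
        rw [Finset.card_pair hij]
        exact h0)
    rw [h5] at h4
    simp only [List.map_cons, List.map_nil, List.prod_cons, List.prod_nil, mul_one] at h4
    exact h4
  have h22 := sq_A r (by omega) ρ (mv 1 (by omega) 2 (by omega) (by omega))
  have h00 : (ρ (A 0) - 1) * (ρ (A 0) - 1) = 0 := by
    obtain ⟨w, hw⟩ := conj_A r 2 (by omega)
    have h5 : ρ w⁻¹ * ρ w = 1 := by rw [← map_mul, inv_mul_cancel, map_one]
    have h6 : ρ w * ρ w⁻¹ = 1 := by rw [← map_mul, mul_inv_cancel, map_one]
    have e1 : ρ (A 0) - 1 = ρ w⁻¹ * (ρ (A 2) - 1) * ρ w := by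
      rw [mul_sub, sub_mul, mul_one, h5, ← map_mul, ← map_mul, hw]
      congr 2
      group
    rw [e1]
    calc ρ w⁻¹ * (ρ (A 2) - 1) * ρ w * (ρ w⁻¹ * (ρ (A 2) - 1) * ρ w)
        = ρ w⁻¹ * (ρ (A 2) - 1) * (ρ w * ρ w⁻¹) * (ρ (A 2) - 1) * ρ w := by noncomm_ring
      _ = ρ w⁻¹ * ((ρ (A 2) - 1) * (ρ (A 2) - 1)) * ρ w := by rw [h6]; noncomm_ring
      _ = 0 := by rw [h22, mul_zero, zero_mul]
  have nr := nrel p.hum (by omega) ρ (by rw [p.t0]; exact h00) (by
    rw [p.t0, p.e1]; exact mv 1 (by omega) 0 (by omega) (by omega))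
  have hz := N01 nr hh h3
  -- the first two members of the chain agree
  have h01 : ρ (t 0) = ρ (t 1) := by
    apply LinearMap.ext
    intro v
    have h5 : (ρ (t 0) - 1) ((ρ (t 1) - 1) ((ρ (t 0) - 1) v)) = 0 := hz _
    have h6 : (ρ (t 0) - 1) ((ρ (t 1) - 1) v) = 0 := hz _
    have hb : (ρ (t 0) - 1) v + (ρ (t 0) - 1) ((ρ (t 1) - 1) ((ρ (t 0) - 1) v)) =
        (ρ (t 1) - 1) v + (ρ (t 1) - 1) ((ρ (t 0) - 1) ((ρ (t 1) - 1) v)) :=
      nr.br 0 (by omega) v
    rw [h5, h6, map_zero, add_zero, add_zero, LinearMap.sub_apply, LinearMap.sub_apply] at hb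
    exact sub_left_injective hb
  let φ : G →* (Module.End K V)ˣ := ρ.toHomUnits
  have hφ : ∀ x y, ρ x = ρ y → φ x = φ y := fun x y hxy => Units.ext hxy
  have br : ∀ x y : G, x * y * x = y * x * y → φ x * φ y * φ x = φ y * φ x * φ y := by
    intro x y hb
    have := congrArg φ hb
    simpa only [map_mul] using this
  have e01 : φ (t 0) = φ (t 1) := hφ _ _ h01
  have e12 : φ (t 1) = φ (t 2) := by
    have c := (p.hum.far 0 2 (by omega) (by omega)).map φ
    rw [e01] at c
    exact eq_of_bc (br _ _ (p.hum.braid 1 (by omega))) c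
  have e23 : φ (t 2) = φ (t 3) := by
    have c := (p.hum.far 1 3 (by omega) (by omega)).map φ
    rw [e12] at c
    exact eq_of_bc (br _ _ (p.hum.braid 2 (by omega))) c
  have e3 : φ (t 3) = φ e := by
    have c := (p.hum.farE 0 (by omega) (by omega)).map φ
    rw [e01, e12, e23] at c
    exact eq_of_bc (br _ _ p.hum.braidE) c.symm
  have hf : φ (A 0) = φ (A 1) := by rw [← p.t0, ← p.e1, e01, e12, e23, e3]
  have := eq_one φ r (by omega) hf
  have h7 := congrArg Units.val this
  exact h7

/-- restriction to a subgroup containing the elements -/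
theorem Pk.pull (p : Pk N h A B al be T tau t e) (C : Subgroup G) (hN : 2 ≤ N) (hh : 3 ≤ h)
    (hA : ∀ i < N, A i ∈ C)
    (hB : ∀ i < N, B i ∈ C) (hal : ∀ i < N, al i ∈ C) (hbe : ∀ i < N, be i ∈ C)
    (hT : ∀ i, i + 1 < N → T i ∈ C) (htau : tau ∈ C) (ht : ∀ j < 2 * h, t j ∈ C) :
    ∃ (A' B' al' be' T' : ℕ → C) (tau' : C) (t' : ℕ → C) (e' : C),
      Pk N h A' B' al' be' T' tau' t' e' ∧ ∀ i < N, (A' i : G) = A i := by
  classical
  obtain ⟨A', B', al', be', T', tau', r', hA'⟩ := pull_sub p.r C hA hB hal hbe hT htau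
  let L : G → C := fun x => if h : x ∈ C then ⟨x, h⟩ else 1
  have hL : ∀ x ∈ C, (L x : G) = x := by
    intro x hx
    simp only [L]
    rw [dif_pos hx]
  have hLt : ∀ j < 2 * h, ((L (t j) : C) : G) = t j := fun j hj => hL _ (ht j hj)
  have he : ((A' 1 : C) : G) = e := by rw [hA' 1 (by omega), p.e1]
  refine ⟨A', B', al', be', T', tau', fun j => L (t j), A' 1, ⟨r', ?_, ?_, rfl⟩, hA'⟩
  · refine ⟨?_, ?_, ?_, ?_⟩
    · intro j hj
      apply Subtype.ext
      simp only [Subgroup.coe_mul]
      rw [hLt j (by omega), hLt (j + 1) hj]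
      exact p.hum.braid j hj
    · intro i j hij hj
      apply Subtype.ext
      simp only [Subgroup.coe_mul]
      rw [hLt i (by omega), hLt j hj]
      exact p.hum.far i j hij hj
    · apply Subtype.ext
      simp only [Subgroup.coe_mul]
      rw [hLt 3 (by omega), he]
      exact p.hum.braidE
    · intro j hj h3
      apply Subtype.ext
      simp only [Subgroup.coe_mul]
      rw [hLt j hj, he]
      exact p.hum.farE j hj h3
  · apply Subtype.ext
    rw [hLt 0 (by omega), hA' 0 (by omega), p.t0]

end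

end Pool.Agent.E8helper34.SD
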