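import Mathlib
import Pool.Agent.E8helper34.SD.Dim

set_option autoImplicit false

/-! Handle elements with a chain acting on modules generated by few elements over commutative
rings: they act trivially. -/

namespace Pool.Agent.E8helper34.SD

open Pool.Agent.H798R3.MG Pool.Agent.TH35.MG Pool.Agent.R352.MG Module TensorProduct
open Pool.Agent.R665.MGR (HumRel)
open Pool.Agent.E8helper34.MR (sepM)

section
variable {R W G : Type*} [CommRing R] [AddCommGroup W] [Module R W] [Group G]
  {N h : ℕ} {A B al be T : ℕ → G} {tau : G} {t : ℕ → G} {e : G}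

/-- the action modulo a maximal ideal -/
theorem base_two (m : Ideal R) [hm : m.IsMaximal] (p : Pk N h A B al be T tau t e) (hN : 5 ≤ N)
    (hh : 3 ≤ h) (σ : G →* Module.End R W) {d : ℕ}
    (s : Fin d → W) (hgen : ∀ w, ∃ c : Fin d → R, w = ∑ i, c i • s i)
    (hd1 : d < 4 * (N - 2).choose 2) (hd2 : d < 2 ^ (N - 3)) (hd3 : d < 2 * h) :
    (∀ i < N, ∀ w, σ (A i) w - w ∈ (m • ⊤ : Submodule R W)) ∧
      (∀ i < N, ∀ w, σ (B i) w - w ∈ (m • ⊤ : Submodule R W)) ∧
      ∀ i, i + 1 < N → ∀ w, σ (T i) w - w ∈ (m • ⊤ : Submodule R W) := by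
  letI : Field (R ⧸ m) := Ideal.Quotient.field m
  let K := AlgebraicClosure (R ⧸ m)
  let V := K ⊗[R] W
  have hspan : Submodule.span K (Set.range (fun i => (1 : K) ⊗ₜ[R] s i)) = (⊤ : Submodule K V) := by
    rw [eq_top_iff]
    intro v _
    induction v using TensorProduct.induction_on with
    | zero => exact Submodule.zero_mem _
    | add a b ha hb => exact Submodule.add_mem _ (ha trivial) (hb trivial)
    | tmul c w =>
      obtain ⟨e, rfl⟩ := hgen w
      rw [TensorProduct.tmul_sum]
      refine Submodule.sum_mem _ fun i _ => ?_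
      have e1 : c ⊗ₜ[R] (e i • s i) = ((e i • c : K)) • ((1 : K) ⊗ₜ[R] s i) := by
        rw [TensorProduct.smul_tmul', smul_eq_mul, mul_one, TensorProduct.smul_tmul]
      rw [e1]
      exact Submodule.smul_mem _ _ (Submodule.subset_span ⟨i, rfl⟩)
  have hfd : Module.Finite K V := by
    rw [Module.finite_def, ← hspan]
    exact Submodule.fg_span (Set.finite_range _)
  have hfin : finrank K V ≤ d := by
    rw [← finrank_top, ← hspan]
    exact (finrank_range_le_card _).trans (by simp)
  let Φ : Module.End R W →ₐ[R] Module.End K V := Module.End.baseChangeHom R K W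
  let ρ : G →* Module.End K V := (Φ : Module.End R W →* Module.End K V).comp σ
  have h0 := alg_one2 p ρ hN hh (by omega) (by omega) (by omega)
  obtain ⟨h1, h2, h3⟩ := all_one (R := Module.End K V) p.r ρ h0
  have key : ∀ x, ρ x = 1 → ∀ w, σ x w - w ∈ (m • ⊤ : Submodule R W) := by
    intro x hx w
    apply mem_of_tmul m (K := K)
    have h4 := LinearMap.congr_fun hx ((1 : K) ⊗ₜ[R] w)
    have h5 : ρ x ((1 : K) ⊗ₜ[R] w) = (1 : K) ⊗ₜ[R] (σ x w) := rfl
    rw [h5] at h4
    rw [TensorProduct.tmul_sub, h4, Module.End.one_apply, sub_self]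
  exact ⟨fun i hi => key _ (h1 i hi), fun i hi => key _ (h2 i hi), fun i hi => key _ (h3 i hi)⟩

/-- Noetherian rings -/
theorem noeth_two [IsNoetherianRing R] (p : Pk N h A B al be T tau t e) (hN : 5 ≤ N)
    (hh : 3 ≤ h) (σ : G →* Module.End R W) {d : ℕ}
    (s : Fin d → W) (hgen : ∀ w, ∃ c : Fin d → R, w = ∑ i, c i • s i)
    (hd1 : d < 4 * (N - 2).choose 2) (hd2 : d < 2 ^ (N - 3)) (hd3 : d < 2 * h) :
    σ (A 0) = 1 := by
  classical
  have hfin : Module.Finite R W := by
    rw [Module.finite_def]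
    refine ⟨Finset.univ.image s, ?_⟩
    rw [eq_top_iff]
    intro w _
    obtain ⟨c, rfl⟩ := hgen w
    refine Submodule.sum_mem _ fun i _ => Submodule.smul_mem _ _ (Submodule.subset_span ?_)
    simp
  ext w
  rw [Module.End.one_apply]
  by_contra hcon
  obtain ⟨m, hm, n, hn⟩ := sepM (R := R) (sub_ne_zero.2 hcon)
  apply hn
  obtain ⟨b1, b2, b3⟩ := base_two m p hN hh σ s hgen hd1 hd2 hd3
  have h := (PG_all σ m p.r (by omega)
    ⟨fun i hi w => by rw [pow_one]; exact b1 i hi w, fun i hi w => by rw [pow_one]; exact b2 i hi w,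
      fun i hi w => by rw [pow_one]; exact b3 i hi w⟩ n).1 0 (by omega) w
  exact Submodule.smul_mono_left (Ideal.pow_le_pow_right (Nat.le_succ n)) h

/-- general commutative rings -/
theorem small_two (p : Pk N h A B al be T tau t e) (hN : 5 ≤ N)
    (hh : 3 ≤ h) (σ : G →* Module.End R W) {d : ℕ}
    (s : Fin d → W) (hgen : ∀ w, ∃ c : Fin d → R, w = ∑ i, c i • s i)
    (hd1 : d < 4 * (N - 2).choose 2) (hd2 : d < 2 ^ (N - 3)) (hd3 : d < 2 * h) :
    σ (A 0) = 1 := by
  classical
  have hr : ∀ (y : G) (i : Fin d), ∃ c : Fin d → R, σ y (s i) = ∑ j, c j • s j :=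
    fun y i => hgen _
  choose c hc using hr
  let g0 : Finset G := (Finset.range N).image A ∪ (Finset.range N).image B ∪
    (Finset.range N).image al ∪ (Finset.range N).image be ∪ (Finset.range N).image T ∪ {tau} ∪
    (Finset.range (2 * h)).image t
  let gens : Finset G := g0 ∪ g0.image (fun x => x⁻¹)
  let S : Finset R := (gens ×ˢ (Finset.univ : Finset (Fin d × Fin d))).image
    (fun p => c p.1 p.2.1 p.2.2)
  let A0 : Subalgebra ℤ R := Algebra.adjoin ℤ (S : Set R)
  have hS : ∀ x ∈ gens, ∀ i j, c x i j ∈ A0 := by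
    intro x hx i j
    apply Algebra.subset_adjoin
    rw [Finset.mem_coe, Finset.mem_image]
    exact ⟨(x, (i, j)), Finset.mem_product.2 ⟨hx, Finset.mem_univ _⟩, rfl⟩
  have hft : Algebra.FiniteType ℤ A0 := (Subalgebra.fg_iff_finiteType A0).1 ⟨S, rfl⟩
  have hNo : IsNoetherianRing A0 := Algebra.FiniteType.isNoetherianRing ℤ A0
  let V₀ : Submodule A0 W := Submodule.span A0 (Set.range s)
  have hsV : ∀ i, s i ∈ V₀ := fun i => Submodule.subset_span ⟨i, rfl⟩
  have hst0 : ∀ y ∈ gens, ∀ w ∈ V₀, σ y w ∈ V₀ := by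
    intro y hy w hw
    induction hw using Submodule.span_induction with
    | mem w hw =>
      obtain ⟨i, rfl⟩ := hw
      rw [hc]
      refine Submodule.sum_mem _ fun j _ => ?_
      exact V₀.smul_mem (⟨c y i j, hS y hy i j⟩ : A0) (hsV j)
    | zero => rw [map_zero]; exact V₀.zero_mem
    | add w w' _ _ h1 h2 => rw [map_add]; exact V₀.add_mem h1 h2
    | smul a w _ h1 =>
      have e : σ y (a • w) = a • σ y w := map_smul (σ y) (a : R) w
      rw [e]
      exact V₀.smul_mem a h1
  let C : Subgroup G :=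
    { carrier := {y | (∀ w ∈ V₀, σ y w ∈ V₀) ∧ ∀ w ∈ V₀, σ y⁻¹ w ∈ V₀}
      one_mem' := by
        have h2 : ∀ w ∈ V₀, σ 1 w ∈ V₀ := by
          intro w hw
          rw [map_one]
          exact hw
        refine ⟨h2, ?_⟩
        rw [inv_one]
        exact h2
      mul_mem' := by
        intro x y h1 h2
        refine ⟨?_, ?_⟩
        · intro w hw
          rw [map_mul]
          exact h1.1 _ (h2.1 w hw)
        · intro w hw
          rw [_root_.mul_inv_rev, map_mul]
          exact h2.2 _ (h1.2 w hw)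
      inv_mem' := by
        intro x h1
        refine ⟨h1.2, ?_⟩
        rw [inv_inv]
        exact h1.1 }
  have hg0 : ∀ x ∈ g0, x ∈ C := by
    intro x hx
    refine ⟨hst0 _ (Finset.mem_union_left _ hx), hst0 _ (Finset.mem_union_right _ ?_)⟩
    exact Finset.mem_image_of_mem (fun x => x⁻¹) hx
  have hm : ∀ x : G, x ∈ g0 ↔ (∃ i < N, A i = x) ∨ (∃ i < N, B i = x) ∨ (∃ i < N, al i = x) ∨
      (∃ i < N, be i = x) ∨ (∃ i < N, T i = x) ∨ x = tau ∨ (∃ i < 2 * h, t i = x) := by
    intro x
    simp only [g0, Finset.mem_union, Finset.mem_image, Finset.mem_range, Finset.mem_singleton,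
      or_assoc]
  obtain ⟨A', B', al', be', T', tau', t', e', p', hA'⟩ := p.pull C (by omega) hh
    (fun i hi => hg0 _ ((hm _).2 (Or.inl ⟨i, hi, rfl⟩)))
    (fun i hi => hg0 _ ((hm _).2 (Or.inr (Or.inl ⟨i, hi, rfl⟩))))
    (fun i hi => hg0 _ ((hm _).2 (Or.inr (Or.inr (Or.inl ⟨i, hi, rfl⟩)))))
    (fun i hi => hg0 _ ((hm _).2 (Or.inr (Or.inr (Or.inr (Or.inl ⟨i, hi, rfl⟩))))))
    (fun i hi => hg0 _ ((hm _).2 (Or.inr (Or.inr (Or.inr (Or.inr (Or.inl
      ⟨i, by omega, rfl⟩)))))))
    (hg0 _ ((hm _).2 (Or.inr (Or.inr (Or.inr (Or.inr (Or.inr (Or.inl rfl))))))))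
    (fun i hi => hg0 _ ((hm _).2 (Or.inr (Or.inr (Or.inr (Or.inr (Or.inr (Or.inr
      ⟨i, hi, rfl⟩))))))))
  let σ₀ : C →* Module.End A0 V₀ :=
    { toFun := fun y =>
        { toFun := fun w => ⟨σ y w, y.2.1 w w.2⟩
          map_add' := by
            intro w w'
            apply Subtype.ext
            exact map_add (σ y) (w : W) w'
          map_smul' := by
            intro a w
            apply Subtype.ext
            exact map_smul (σ y) (a : R) (w : W) }
      map_one' := by
        apply LinearMap.ext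
        intro w
        apply Subtype.ext
        show σ 1 (w : W) = w
        rw [map_one]
        rfl
      map_mul' := by
        intro x y
        apply LinearMap.ext
        intro w
        apply Subtype.ext
        show σ ((x : G) * y) (w : W) = σ x (σ y (w : W))
        rw [map_mul]
        rfl }
  have h1 := noeth_two p' hN hh σ₀ (fun i => (⟨s i, hsV i⟩ : V₀)) (by
    intro w
    obtain ⟨e, he⟩ := (Submodule.mem_span_range_iff_exists_fun A0).1 w.2
    refine ⟨e, ?_⟩
    apply Subtype.ext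
    rw [← he]
    simp) hd1 hd2 hd3
  have h2 : ∀ i, σ (A 0) (s i) = s i := by
    intro i
    have h3 := LinearMap.congr_fun h1 (⟨s i, hsV i⟩ : V₀)
    have h4 := congrArg Subtype.val h3
    have h5 : σ ((A' 0 : C) : G) (s i) = s i := h4
    rwa [hA' 0 (by omega)] at h5
  apply LinearMap.ext
  intro w
  obtain ⟨e, rfl⟩ := hgen w
  rw [map_sum, Module.End.one_apply]
  exact Finset.sum_congr rfl fun i _ => by rw [map_smul, h2]

end

end Pool.Agent.E8helper34.SD
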