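import Mathlib
import Pool.Agent.E8helper34.SD.Ind2

set_option autoImplicit false

/-! Displacement less than `2 g - 2` implies quadratic. -/

namespace Pool.Agent.E8helper34.SD

open Pool.Agent.H798R3.MG Pool.Agent.H29R2.MG Pool.Agent.TH35.MG Pool.Agent.R352.MG Module
open Pool.Agent.R665.MGR (HumRel)
open Pool.Agent.E8helper34.MR (HG tM aM tM_zero setupM twA humM)
open Pool.Agent.E8helper34.QA (Quad)

/-- the vanishing of one product implies quadratic -/
theorem quad_of_prod {g : ℕ} (hg : 7 ≤ g) {A' : Type*} [Ring A'] (ρ : HG g →* A')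
    (h : (ρ (aM g 1) - 1) * (ρ (aM g 0) - 1) = 0) : Quad ρ := by
  obtain ⟨Γ, A, B, al, be, T, tau, q, r, hA⟩ := setupM hg
  have hq : ∀ i < g - 3, q (A i) = aM g i := by
    intro i hi
    apply Subtype.ext
    rw [hA i hi, twA hg (by omega)]
  have h0 : tM g 0 = q (A 0) := by rw [hq 0 (by omega), tM_zero (by omega)]
  have h1 : aM g 1 = q (A 1) := (hq 1 (by omega)).symm
  set θ := ρ.comp q with hθ
  have h10 : (θ (A 1) - 1) * (θ (A 0) - 1) = 0 := by
    rw [hθ, MonoidHom.comp_apply, MonoidHom.comp_apply, hq 1 (by omega), hq 0 (by omega)]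
    exact h
  have hX := X_list θ r.commAA (E := {1, 0}) (by
      intro i hi
      simp only [Finset.mem_insert, Finset.mem_singleton] at hi
      omega) (l := [1, 0]) (by simp) (by intro i; simp)
  simp only [List.map_cons, List.map_nil, List.prod_cons, List.prod_nil, mul_one] at hX
  rw [h10] at hX
  have hX2 := (X_move (h := r.commAA) r θ (E := {1, 0}) (by
      intro i hi
      simp only [Finset.mem_insert, Finset.mem_singleton] at hi
      omega)).1 hX.symm
  have hc : ({1, 0} : Finset ℕ).card = ({1, 2} : Finset ℕ).card := rfl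
  rw [hc] at hX2
  have hX3 := (X_move (h := r.commAA) r θ (E := {1, 2}) (by
      intro i hi
      simp only [Finset.mem_insert, Finset.mem_singleton] at hi
      omega)).2 hX2
  have hX4 := X_list θ r.commAA (E := {1, 2}) (by
      intro i hi
      simp only [Finset.mem_insert, Finset.mem_singleton] at hi
      omega) (l := [1, 2]) (by simp) (by intro i; simp)
  simp only [List.map_cons, List.map_nil, List.prod_cons, List.prod_nil, mul_one] at hX4
  rw [hX3] at hX4
  have h22 := sq_A r (by omega) θ hX4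
  have h00 : (θ (A 0) - 1) * (θ (A 0) - 1) = 0 := by
    obtain ⟨w, hw⟩ := conj_A r 2 (by omega)
    have h5 : θ w⁻¹ * θ w = 1 := by rw [← map_mul, inv_mul_cancel, map_one]
    have h6 : θ w * θ w⁻¹ = 1 := by rw [← map_mul, mul_inv_cancel, map_one]
    have e1 : θ (A 0) - 1 = θ w⁻¹ * (θ (A 2) - 1) * θ w := by
      rw [mul_sub, sub_mul, mul_one, h5, ← map_mul, ← map_mul, hw]
      congr 2
      group
    rw [e1]
    calc θ w⁻¹ * (θ (A 2) - 1) * θ w * (θ w⁻¹ * (θ (A 2) - 1) * θ w)
        = θ w⁻¹ * (θ (A 2) - 1) * (θ w * θ w⁻¹) * (θ (A 2) - 1) * θ w := by noncomm_ring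
      _ = θ w⁻¹ * ((θ (A 2) - 1) * (θ (A 2) - 1)) * θ w := by rw [h6]; noncomm_ring
      _ = 0 := by rw [h22, mul_zero, zero_mul]
  refine ⟨?_, ?_⟩
  · rw [h0]
    exact h00
  · rw [h0, h1]
    exact h10

/-- the chain in the complement of `a_0` -/
def tc (g j : ℕ) : HG g := if j = 0 then aM g 1 else tM g (j + 2)

theorem tc_zero (g : ℕ) : tc g 0 = aM g 1 := if_pos rfl

theorem tc_pos (g : ℕ) {j : ℕ} (h : j ≠ 0) : tc g j = tM g (j + 2) := if_neg h

theorem hum_c {g : ℕ} (hg : 7 ≤ g) (hc : Commute (aM g 2) (aM g 1)) :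
    HumRel (2 * (g - 1)) (tc g) (aM g 2) := by
  have r := humM (g := g) (by omega)
  refine ⟨?_, ?_, ?_, ?_⟩
  · intro j hj
    rcases Nat.eq_zero_or_pos j with rfl | h
    · rw [tc_zero, tc_pos g (by omega)]
      exact r.braidE.symm
    · rw [tc_pos g (by omega), tc_pos g (by omega)]
      exact r.braid (j + 2) (by omega)
  · intro i j hij hj
    rcases Nat.eq_zero_or_pos i with rfl | h
    · rw [tc_zero, tc_pos g (by omega)]
      exact r.farE _ (by omega) (by omega)
    · rw [tc_pos g (by omega), tc_pos g (by omega)]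
      exact r.far _ _ (by omega) (by omega)
  · rw [tc_pos g (by omega)]
    exact braid_aM (g := g) (p := 2) (by omega) (by omega)
  · intro j hj h3
    rcases Nat.eq_zero_or_pos j with rfl | h
    · rw [tc_zero]
      exact hc
    · rw [tc_pos g (by omega)]
      exact comm_aM (by omega) (by omega) (by omega) (by omega)

/-- the group in the complement of `a_0` -/
theorem setupC {g : ℕ} (hg : 7 ≤ g) :
    ∃ (A B al be T : ℕ → HG g) (tau : HG g),
      Pk (g - 4) (g - 1) A B al be T tau (tc g) (aM g 2) ∧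
      (∀ i < g - 4, A i ∈ Subgroup.centralizer {aM g 0}) ∧
      (∀ i < g - 4, B i ∈ Subgroup.centralizer {aM g 0}) ∧
      (∀ i < g - 4, al i ∈ Subgroup.centralizer {aM g 0}) ∧
      (∀ i < g - 4, be i ∈ Subgroup.centralizer {aM g 0}) ∧
      (∀ i, i + 1 < g - 4 → T i ∈ Subgroup.centralizer {aM g 0}) ∧
      tau ∈ Subgroup.centralizer {aM g 0} ∧
      (∀ j < 2 * (g - 1), tc g j ∈ Subgroup.centralizer {aM g 0}) ∧ A 0 = aM g 1 := by
  obtain ⟨Γ, A, B, al, be, T, tau, q, r, hA⟩ := setupM hg
  have hq : ∀ i < g - 3, q (A i) = aM g i := by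
    intro i hi
    apply Subtype.ext
    rw [hA i hi, twA hg (by omega)]
  have e3 : g - 3 = (g - 4) + 1 := by omega
  have r1 : HRel ((g - 4) + 1) A B al be T tau := e3 ▸ r
  have r2 := r1.map q
  have hC : ∀ x : HG g, Commute x (aM g 0) → x ∈ Subgroup.centralizer {aM g 0} := by
    intro x hx
    rw [Subgroup.mem_centralizer_iff]
    intro y hy
    rw [Set.mem_singleton_iff.1 hy]
    exact hx.symm.eq
  have h00 := hq 0 (by omega)
  have c12 : Commute (aM g 2) (aM g 1) := by
    have := r2.commAA 2 (by omega) 1 (by omega)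
    rwa [hq 2 (by omega), hq 1 (by omega)] at this
  refine ⟨_, _, _, _, _, _, ⟨shift r2, hum_c hg c12, ?_, ?_⟩, ?_, ?_, ?_, ?_, ?_, ?_, ?_, ?_⟩
  · rw [tc_zero]; exact (hq 1 (by omega)).symm
  · exact (hq 2 (by omega)).symm
  · intro i hi
    have := r2.commAA (i + 1) (by omega) 0 (by omega)
    rw [h00] at this
    exact hC _ this
  · intro i hi
    have := r2.commAB 0 (by omega) (i + 1) (by omega) (by omega)
    rw [h00] at this
    exact hC _ this.symm
  · intro i hi
    have := r2.commAal 0 (by omega) (i + 1) (by omega)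
    rw [h00] at this
    exact hC _ this.symm
  · intro i hi
    have := r2.commAbe 0 (by omega) (i + 1) (by omega) (by omega)
    rw [h00] at this
    exact hC _ this.symm
  · intro i hi
    have := r2.commTA (i + 1) (by omega) 0 (by omega)
    rw [h00] at this
    exact hC _ this
  · have := r2.tauA 0 (by omega)
    rw [h00] at this
    exact hC _ this
  · intro j hj
    apply hC
    rcases Nat.eq_zero_or_pos j with rfl | h
    · rw [tc_zero]
      have := r2.commAA 1 (by omega) 0 (by omega)
      rwa [hq 1 (by omega), h00] at this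
    · rw [tc_pos g (by omega)]
      exact (comm_aM (by omega) (by omega) (by omega) (by omega)).symm
  · exact hq 1 (by omega)

/-- displacement less than `2 g - 2` implies quadratic -/
theorem quad_disp {g : ℕ} (hg : 12 ≤ g) {R V : Type*} [CommRing R] [AddCommGroup V] [Module R V]
    (ρ : HG g →* Module.End R V) {d : ℕ} (hd : d + 2 < 2 * g) (s : Fin d → V)
    (hs : ∀ i, ∃ v, s i = ρ (tM g 0) v - v)
    (hgen : ∀ v, ∃ c : Fin d → R, ρ (tM g 0) v - v = ∑ i, c i • s i) : Quad ρ := by
  rw [tM_zero (by omega)] at hs hgen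
  refine quad_of_prod (by omega) ρ ?_
  obtain ⟨A, B, al, be, T, tau, p, mA, mB, mal, mbe, mT, mtau, mt, hA0⟩ := setupC (g := g) (by omega)
  let W : Submodule R V := LinearMap.range (ρ (aM g 0) - 1)
  have hW : ∀ w, w ∈ W ↔ ∃ v, ρ (aM g 0) v - v = w := fun w => Iff.rfl
  let C : Subgroup (HG g) := Subgroup.centralizer {aM g 0}
  have hC' : ∀ x ∈ C, ∀ w ∈ W, ρ x w ∈ W := by
    intro x hx w hw
    obtain ⟨v, rfl⟩ := (hW w).1 hw
    have e : aM g 0 * x = x * aM g 0 := Subgroup.mem_centralizer_iff.1 hx _ rfl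
    rw [hW]
    refine ⟨ρ x v, ?_⟩
    rw [map_sub, ← Module.End.mul_apply, ← Module.End.mul_apply, ← map_mul, ← map_mul, e]
  obtain ⟨A', B', al', be', T', tau', t', e', p', hA'⟩ := p.pull C (by omega) (by omega)
    mA mB mal mbe mT mtau mt
  let σ : C →* Module.End R W :=
    { toFun := fun y =>
        { toFun := fun w => ⟨ρ y w, hC' y y.2 w w.2⟩
          map_add' := by
            intro w w'
            apply Subtype.ext
            exact map_add (ρ y) (w : V) w'
          map_smul' := by
            intro a w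
            apply Subtype.ext
            exact map_smul (ρ y) a (w : V) }
      map_one' := by
        apply LinearMap.ext
        intro w
        apply Subtype.ext
        show ρ 1 (w : V) = w
        rw [map_one]
        rfl
      map_mul' := by
        intro x y
        apply LinearMap.ext
        intro w
        apply Subtype.ext
        show ρ ((x : HG g) * y) (w : V) = ρ x (ρ y (w : V))
        rw [map_mul]
        rfl }
  have hsW : ∀ i, s i ∈ W := fun i => by
    obtain ⟨v, hv⟩ := hs i
    exact (hW _).2 ⟨v, hv.symm⟩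
  have b1 : ∀ n : ℕ, 2 * n + 22 ≤ 4 * (n + 6).choose 2 ∧ 2 * n + 22 ≤ 2 ^ (n + 5) := by
    intro n
    induction n with
    | zero => decide
    | succ n ih =>
      have h1 : (n + 1 + 6).choose 2 = (n + 6) + (n + 6).choose 2 := by
        rw [show n + 1 + 6 = (n + 6) + 1 by ring, Nat.choose_succ_succ' (n + 6) 1,
          Nat.choose_one_right]
      have h2 : 2 ^ (n + 1 + 5) = 2 * 2 ^ (n + 5) := by ring
      omega
  obtain ⟨b2, b3⟩ := b1 (g - 12)
  rw [show g - 12 + 6 = g - 4 - 2 by omega] at b2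
  rw [show g - 12 + 5 = g - 4 - 3 by omega] at b3
  have h1 := small_two p' (by omega) (by omega) σ (fun i => (⟨s i, hsW i⟩ : W)) (by
    intro w
    obtain ⟨v, hv⟩ := (hW w).1 w.2
    obtain ⟨c, hc⟩ := hgen v
    refine ⟨c, ?_⟩
    apply Subtype.ext
    rw [← hv, hc]
    simp) (by omega) (by omega) (by omega)
  apply LinearMap.ext
  intro v
  have h3 := LinearMap.congr_fun h1 (⟨ρ (aM g 0) v - v, (hW _).2 ⟨v, rfl⟩⟩ : W)
  have h4 := congrArg Subtype.val h3
  have h5 : ρ ((A' 0 : C) : HG g) (ρ (aM g 0) v - v) = ρ (aM g 0) v - v := h4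
  have h6 : ((A' 0 : C) : HG g) = aM g 1 := by rw [hA' 0 (by omega), hA0]
  rw [h6] at h5
  show ρ (aM g 1) (ρ (aM g 0) v - v) - (ρ (aM g 0) v - v) = 0
  rw [h5, sub_self]

end Pool.Agent.E8helper34.SD
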